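import Mathlib

/-!
Countable structures with universe a subset of `ω`, their atomic diagrams, the effective list of
the computable ones, isomorphism problems, pointclasses and completeness.
-/

namespace Pool.Agent.MPbe00aa

open Nat.Partrec (Code)
open Nat.Partrec.Code Denumerable Encodable

/-- The arithmetical hierarchy of predicates. `Arith k true p` says that `p` is `Σ⁰_k`,
and `Arith k false p` says that `p` is `Π⁰_k`: at level `0` both mean that `p` is computable,
a `Σ⁰_{k+1}` predicate is of the form `∃ x : ℕ, q (a, x)` with `q` a `Π⁰_k` predicate,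
and a `Π⁰_{k+1}` predicate is of the form `∀ x : ℕ, q (a, x)` with `q` a `Σ⁰_k` predicate. -/
def Arith : ℕ → Bool → {α : Type} → [Primcodable α] → (α → Prop) → Prop
  | 0, _, _, _, p => ComputablePred p
  | k + 1, true, α, _, p =>
      ∃ q : α × ℕ → Prop, Arith k false q ∧ ∀ a, p a ↔ ∃ x : ℕ, q (a, x)
  | k + 1, false, α, _, p =>
      ∃ q : α × ℕ → Prop, Arith k true q ∧ ∀ a, p a ↔ ∀ x : ℕ, q (a, x)

/-- A countable structure, with universe a nonempty set of natural numbers, for the relational
language with relation symbols `R_0, R_1, …`, where `R_i` has arity `ar i`. -/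
structure OStr (ar : ℕ → ℕ) where
  /-- the universe -/
  univ : Set ℕ
  nonempty : univ.Nonempty
  /-- the interpretation of the relation symbol `R_i` -/
  rel : (i : ℕ) → (Fin (ar i) → ℕ) → Prop
  rel_mem : ∀ i v, rel i v → ∀ j, v j ∈ univ

/-- Isomorphisms of structures. -/
structure Iso {ar : ℕ → ℕ} (A B : OStr ar) where
  /-- the bijection of the universes -/
  toEquiv : A.univ ≃ B.univ
  map_rel : ∀ (i : ℕ) (v : Fin (ar i) → A.univ),
    A.rel i (fun j => (v j : ℕ)) ↔ B.rel i (fun j => (toEquiv (v j) : ℕ))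

/-- `A` and `B` are isomorphic. -/
def Isom {ar : ℕ → ℕ} (A B : OStr ar) : Prop := Nonempty (Iso A B)

/-- Atomic sentences of the language with the natural numbers as names for elements:
equalities `m = n` and relations `R_i(v)`. -/
inductive Atom (ar : ℕ → ℕ) : Type
  | eq (m n : ℕ) : Atom ar
  | rel (i : ℕ) (v : Fin (ar i) → ℕ) : Atom ar

/-- The code (Goedel number) of an atomic sentence. -/
def Atom.code {ar : ℕ → ℕ} : Atom ar → ℕ
  | .eq m n => 2 * Nat.pair m n
  | .rel i v => 2 * Nat.pair i (encode (List.ofFn v)) + 1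

/-- Truth of an atomic sentence in a structure; in particular `n = n` is true if and only if `n`
is an element of the universe. -/
def OStr.Holds {ar : ℕ → ℕ} (A : OStr ar) : Atom ar → Prop
  | .eq m n => m = n ∧ m ∈ A.univ
  | .rel i v => A.rel i v

/-- The atomic diagram, as a set of codes. -/
def OStr.diagram {ar : ℕ → ℕ} (A : OStr ar) : Set ℕ :=
  {m | ∃ φ : Atom ar, φ.code = m ∧ A.Holds φ}

open Classical in
/-- `IsIndex e A`: the structure `A_e` exists and is `A`, that is, the `e`-th partial computable
function is (the characteristic function of) the atomic diagram of `A`. -/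
def IsIndex {ar : ℕ → ℕ} (e : ℕ) (A : OStr ar) : Prop :=
  ∀ m, (ofNat Code e).eval m = Part.some (if m ∈ A.diagram then 1 else 0)

/-- A class of structures closed under isomorphism. -/
def IsoClosed {ar : ℕ → ℕ} (K : Set (OStr ar)) : Prop :=
  ∀ A B : OStr ar, A ∈ K → Isom A B → B ∈ K

/-- The index set `I(K)` of the computable members of `K`. -/
def indexSet {ar : ℕ → ℕ} (K : Set (OStr ar)) : ℕ → Prop :=
  fun e => ∃ A ∈ K, IsIndex e A

/-- The isomorphism problem `E(K)`: the set of the pairs `(a, b)` such that `A_a` and `A_b` are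
computable members of `K` and are isomorphic. -/
def isoProblem {ar : ℕ → ℕ} (K : Set (OStr ar)) : ℕ × ℕ → Prop :=
  fun x => ∃ A ∈ K, ∃ B ∈ K, IsIndex x.1 A ∧ IsIndex x.2 B ∧ Isom A B

/-- A `Σ¹₁` predicate, in normal form: `∃ f : ℕ → ℕ, ∀ m, R (a, f(0), …, f(m-1))` with `R`
computable. -/
def IsSigma11 {α : Type} [Primcodable α] (p : α → Prop) : Prop :=
  ∃ R : α × List ℕ → Prop, ComputablePred R ∧
    ∀ a, p a ↔ ∃ f : ℕ → ℕ, ∀ m, R (a, (List.range m).map f)

/-- The levels `Γ` considered: `Σ⁰_k`, `Π⁰_k` and `Σ¹₁`. -/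
inductive Level : Type
  | sigma (k : ℕ) : Level
  | pi (k : ℕ) : Level
  | sigma11 : Level

/-- Membership of a set (predicate) in the pointclass `Γ`. -/
def Level.Mem {α : Type} [Primcodable α] : Level → (α → Prop) → Prop
  | .sigma k, p => Arith k true p
  | .pi k, p => Arith k false p
  | .sigma11, p => IsSigma11 p

/-- `p` is properly at level `Γ`: `p ∈ Γ` and `p ∉ Δ`, where `Δ` is the ambiguous class
consisting of the sets which are in `Γ` together with their complement. -/
def ProperlyAt {α : Type} [Primcodable α] (Γ : Level) (p : α → Prop) : Prop :=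
  Γ.Mem p ∧ ¬ (Γ.Mem p ∧ Γ.Mem (fun a => ¬ p a))

/-- `p` is `Γ`-complete: `p ∈ Γ` and every set of natural numbers in `Γ` is many-one reducible
to `p` (via a computable function). -/
def IsComplete {α : Type} [Primcodable α] (Γ : Level) (p : α → Prop) : Prop :=
  Γ.Mem p ∧ ∀ q : ℕ → Prop, Γ.Mem q → q ≤₀ p

end Pool.Agent.MPbe00aa
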