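import Pool.Agent.MPbe00aa.Immune
import Pool.Agent.MPbe00aa.Defs

/-!
Closure properties of `Σ¹₁` and a properly `Σ¹₁` set.
-/

namespace Pool.Agent.MPbe00aa

open Nat.Partrec (Code)
open Nat.Partrec.Code Denumerable Encodable

variable {α β : Type} [Primcodable α] [Primcodable β]

theorem IsSigma11.congr {p q : α → Prop} (hp : IsSigma11 p) (h : ∀ a, p a ↔ q a) :
    IsSigma11 q := by
  have : p = q := funext fun a => propext (h a)
  exact this ▸ hp

theorem IsSigma11.comp {p : α → Prop} (hp : IsSigma11 p) {f : β → α} (hf : Computable f) :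
    IsSigma11 (fun b => p (f b)) := by
  obtain ⟨R, hR, h⟩ := hp
  refine ⟨fun x => R (f x.1, x.2), ?_, fun b => h (f b)⟩
  exact ComputablePred.comp' hR (f := fun x : β × List ℕ => (f x.1, x.2))
    ((hf.comp Computable.fst).pair Computable.snd)

theorem isSigma11_of_computable {p : α → Prop} (hp : ComputablePred p) : IsSigma11 p := by
  refine ⟨fun x => p x.1, ComputablePred.comp' hp Computable.fst, fun a => ?_⟩
  exact ⟨fun h => ⟨fun _ => 0, fun _ => h⟩, fun ⟨_, h⟩ => h 0⟩

theorem IsSigma11.exN {p : α × ℕ → Prop} (hp : IsSigma11 p) :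
    IsSigma11 (fun a => ∃ x, p (a, x)) := by
  obtain ⟨R, hR, h⟩ := hp
  refine ⟨fun y => y.2 = [] ∨ R ((y.1, y.2.headI), y.2.tail), ?_, ?_⟩
  · refine ComputablePred.or' ?_ ?_
    · exact (PrimrecRel.comp Primrec.eq Primrec.snd (Primrec.const [])).computablePred
    · refine ComputablePred.comp' hR (f := fun y : α × List ℕ => ((y.1, y.2.headI), y.2.tail)) ?_
      exact ((Primrec.fst.pair (Primrec.list_headI.comp Primrec.snd)).pair
        (Primrec.list_tail.comp Primrec.snd)).to_comp
  · intro a
    constructor
    · rintro ⟨x, hx⟩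
      obtain ⟨f, hf⟩ := (h _).1 hx
      refine ⟨fun n => Nat.casesOn n x f, fun m => ?_⟩
      cases m with
      | zero => exact Or.inl (by simp)
      | succ m =>
        refine Or.inr ?_
        have e : (List.range (m + 1)).map (fun n => (Nat.casesOn n x f : ℕ)) =
            x :: (List.range m).map f := by
          simp only [List.range_succ_eq_map, List.map_cons, List.map_map]
          rfl
        simp only [e]
        exact hf m
    · rintro ⟨f, hf⟩
      refine ⟨f 0, (h _).2 ⟨fun n => f (n + 1), fun m => ?_⟩⟩
      rcases hf (m + 1) with h0 | hR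
      · simp at h0
      · have e : (List.range (m + 1)).map f = f 0 :: (List.range m).map (fun n => f (n + 1)) := by
          simp only [List.range_succ_eq_map, List.map_cons, List.map_map]
          rfl
        simp only [e] at hR
        exact hR

theorem IsSigma11.allN {p : α × ℕ → Prop} (hp : IsSigma11 p) :
    IsSigma11 (fun a => ∀ x, p (a, x)) := by
  obtain ⟨R, hR, h⟩ := hp
  refine ⟨fun y => R ((y.1, y.2.length.unpair.1),
    (List.range y.2.length.unpair.2).map
      (fun j => y.2.getD (Nat.pair y.2.length.unpair.1 j) 0)), ?_, ?_⟩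
  · refine ComputablePred.comp' hR (f := fun y : α × List ℕ => ((y.1, y.2.length.unpair.1),
      (List.range y.2.length.unpair.2).map
      (fun j => y.2.getD (Nat.pair y.2.length.unpair.1 j) 0))) ?_
    have hlen : Primrec (fun y : α × List ℕ => y.2.length.unpair) :=
      Primrec.unpair.comp (Primrec.list_length.comp Primrec.snd)
    refine (((Primrec.fst.pair (Primrec.fst.comp hlen)).pair ?_)).to_comp
    refine Primrec.list_map (Primrec.list_range.comp (Primrec.snd.comp hlen)) ?_
    refine (Primrec.list_getD 0).comp (Primrec.snd.comp Primrec.fst) ?_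
    exact Primrec₂.natPair.comp (Primrec.fst.comp (hlen.comp Primrec.fst)) Primrec.snd
  · intro a
    have key : ∀ (f : ℕ → ℕ) (x m N : ℕ), N = Nat.pair x m →
        (List.range m).map (fun j => ((List.range N).map f).getD (Nat.pair x j) 0) =
        (List.range m).map (fun j => f (Nat.pair x j)) := by
      intro f x m N hN
      refine List.map_congr_left fun j hj => ?_
      have hj' : j < m := List.mem_range.1 hj
      have hlt : Nat.pair x j < N := hN ▸ Nat.pair_lt_pair_right _ hj'
      rw [List.getD_eq_getElem _ _ (by simpa using hlt)]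
      simp
    constructor
    · intro hx
      choose F hF using fun x => (h (a, x)).1 (hx x)
      refine ⟨fun n => F n.unpair.1 n.unpair.2, fun N => ?_⟩
      have e := key (fun n => F n.unpair.1 n.unpair.2) N.unpair.1 N.unpair.2 N
        (Nat.pair_unpair N).symm
      simp only [Nat.unpair_pair] at e
      simp only [List.length_map, List.length_range]
      rw [e]
      exact hF N.unpair.1 N.unpair.2
    · rintro ⟨f, hf⟩ x
      refine (h _).2 ⟨fun j => f (Nat.pair x j), fun m => ?_⟩
      have h1 := hf (Nat.pair x m)
      simp only [List.length_map, List.length_range, Nat.unpair_pair] at h1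
      rw [key f x m _ rfl] at h1
      exact h1

theorem IsSigma11.and {p q : α → Prop} (hp : IsSigma11 p) (hq : IsSigma11 q) :
    IsSigma11 (fun a => p a ∧ q a) := by
  have h : IsSigma11 (fun x : α × ℕ => (x.2 = 0 ∧ p x.1) ∨ (x.2 ≠ 0 ∧ q x.1)) := by
    obtain ⟨R1, hR1, h1⟩ := hp
    obtain ⟨R2, hR2, h2⟩ := hq
    refine ⟨fun y => (y.1.2 = 0 ∧ R1 (y.1.1, y.2)) ∨ (y.1.2 ≠ 0 ∧ R2 (y.1.1, y.2)), ?_, ?_⟩
    · have hz : ComputablePred (fun y : (α × ℕ) × List ℕ => y.1.2 = 0) :=
        (PrimrecRel.comp Primrec.eq (Primrec.snd.comp Primrec.fst)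
          (Primrec.const 0)).computablePred
      have hf : Computable (fun y : (α × ℕ) × List ℕ => (y.1.1, y.2)) :=
        (Computable.fst.comp Computable.fst).pair Computable.snd
      exact ComputablePred.or' (ComputablePred.and' hz (ComputablePred.comp' hR1 hf))
        (ComputablePred.and' hz.not (ComputablePred.comp' hR2 hf))
    · rintro ⟨a, x⟩
      by_cases hx : x = 0
      · simp [hx, h1 a]
      · simp [hx, h2 a]
  refine h.allN.congr fun a => ?_
  constructor
  · intro h
    refine ⟨?_, ?_⟩
    · have := h 0
      simpa using this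
    · have := h 1
      simpa using this
  · rintro ⟨h1, h2⟩ x
    by_cases hx : x = 0
    · exact Or.inl ⟨hx, h1⟩
    · exact Or.inr ⟨hx, h2⟩

theorem isSigma11_of_arith {k : ℕ} : ∀ {s : Bool} {α : Type} [Primcodable α] {p : α → Prop},
    Arith k s p → IsSigma11 p := by
  induction k with
  | zero =>
    intro s α _ p hp
    exact isSigma11_of_computable hp
  | succ k ih =>
    intro s α _ p hp
    cases s with
    | true =>
      obtain ⟨q, hq, h⟩ := hp
      exact (ih hq).exN.congr fun a => (h a).symm
    | false =>
      obtain ⟨q, hq, h⟩ := hp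
      exact (ih hq).allN.congr fun a => (h a).symm

/-- a universal `Σ¹₁` predicate -/
def Univ11 (e n : ℕ) : Prop :=
  ∃ f : ℕ → ℕ, ∀ m, ¬ ((ofNat Code e).eval (Nat.pair n (encode ((List.range m).map f)))).Dom

theorem univ11_isSigma11 : IsSigma11 (fun x : ℕ × ℕ => Univ11 x.1 x.2) := by
  refine ⟨fun y => evaln y.2.length.unpair.2 (ofNat Code y.1.1)
    (Nat.pair y.1.2 (encode (y.2.take y.2.length.unpair.1))) = none, ?_, ?_⟩
  · refine PrimrecPred.computablePred ?_
    refine PrimrecRel.comp Primrec.eq ?_ (Primrec.const none)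
    have hlen : Primrec (fun y : (ℕ × ℕ) × List ℕ => y.2.length.unpair) :=
      Primrec.unpair.comp (Primrec.list_length.comp Primrec.snd)
    refine primrec_evaln.comp (((Primrec.snd.comp hlen).pair ((Primrec.ofNat Code).comp
      (Primrec.fst.comp Primrec.fst))).pair ?_)
    refine Primrec₂.natPair.comp (Primrec.snd.comp Primrec.fst) (Primrec.encode.comp ?_)
    exact Primrec.list_take.comp (Primrec.fst.comp hlen) Primrec.snd
  · rintro ⟨e, n⟩
    simp only [Univ11]
    refine exists_congr fun f => ?_
    constructor
    · intro h N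
      simp only [List.length_map, List.length_range]
      have h1 := h N.unpair.1
      have htake : ((List.range N).map f).take N.unpair.1 = (List.range N.unpair.1).map f := by
        rw [← List.map_take, List.take_range, min_eq_left (Nat.unpair_left_le N)]
      rw [htake]
      by_contra hne
      obtain ⟨v, hv⟩ := Option.ne_none_iff_exists'.1 hne
      exact h1 (Part.dom_iff_mem.2 ⟨v, evaln_sound hv⟩)
    · intro h m hd
      obtain ⟨t, ht⟩ := evaln_complete.1 (Part.get_mem hd)
      have h1 := h (Nat.pair m t)
      simp only [List.length_map, List.length_range, Nat.unpair_pair] at h1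
      have htake : ((List.range (Nat.pair m t)).map f).take m = (List.range m).map f := by
        rw [← List.map_take, List.take_range, min_eq_left (Nat.left_le_pair m t)]
      rw [htake] at h1
      rw [h1] at ht
      simp at ht

theorem exists_index11 {p : ℕ → Prop} (hp : IsSigma11 p) : ∃ e, ∀ n, p n ↔ Univ11 e n := by
  obtain ⟨R, hR, h⟩ := hp
  have h1 : REPred (fun y : ℕ × List ℕ => ¬ R y) := hR.not.to_re
  have hre : Partrec (fun a : ℕ × List ℕ => Part.assert (¬ R a) fun _ => Part.some ()) := h1
  obtain ⟨c, hc⟩ := Nat.Partrec.Code.exists_code.1 (hre : Partrec _)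
  refine ⟨encode c, fun n => ?_⟩
  rw [h n]
  refine exists_congr fun f => forall_congr' fun m => ?_
  have he : Nat.pair n (encode ((List.range m).map f)) = encode (n, (List.range m).map f) := by
    simp
  simp only [ofNat_encode]
  rw [he, hc]
  simp [Part.assert]

theorem not_isSigma11_diag : ¬ IsSigma11 (fun e : ℕ => ¬ Univ11 e e) := by
  intro h
  obtain ⟨e, he⟩ := exists_index11 h
  have := he e
  tauto

end Pool.Agent.MPbe00aa
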