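import Pool.Agent.MPbe00aa.IsoPi3
import Pool.Agent.MPbe00aa.Sigma11

/-!
Classes whose isomorphism problem is properly at level `Γ` and not `Γ`-complete, for every level
from the third on.
-/

namespace Pool.Agent.MPbe00aa

open Nat.Partrec (Code)
open Nat.Partrec.Code Denumerable Encodable

attribute [local fun_prop] Computable
attribute [local fun_prop] Computable.id Computable.const Computable.comp Computable.fst
  Computable.snd Computable.pair comp_pair comp_unpair comp_succ comp_ix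
  comp_double comp_cE comp_cP

/-- one-element structures in which exactly the relation `R_n` holds -/
def One (n : ℕ) (A : OStr ar1) : Prop := ∃ y, A.univ = {y} ∧ typ A y = {n}

/-- the class of the one-element structures with tag in `S` -/
def ClassS (S : ℕ → Prop) : Set (OStr ar1) := {A | ∃ n, S n ∧ One n A}

theorem One.injTyp {n : ℕ} {A : OStr ar1} (h : One n A) :
    ∀ y ∈ A.univ, ∀ y' ∈ A.univ, typ A y = typ A y' → y = y' := by
  obtain ⟨y0, hU, -⟩ := h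
  intro y hy y' hy' _
  rw [hU] at hy hy'
  simp only [Set.mem_singleton_iff] at hy hy'
  rw [hy, hy']

theorem isom_one {n m : ℕ} {A B : OStr ar1} (hA : One n A) (hB : One m B) :
    Isom A B ↔ n = m := by
  rw [isom_iff hA.injTyp hB.injTyp]
  obtain ⟨y, hU, hy⟩ := hA
  obtain ⟨z, hV, hz⟩ := hB
  rw [hU, hV]
  simp only [Set.mem_singleton_iff, forall_eq, exists_eq_left, and_self, hy, hz,
    Set.singleton_eq_singleton_iff]

theorem isoClosed_S (S : ℕ → Prop) : IsoClosed (ClassS S) := by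
  rintro A B ⟨n, hn, y, hU, hy⟩ ⟨f⟩
  have hyU : y ∈ A.univ := by rw [hU]; exact Set.mem_singleton y
  refine ⟨n, hn, f.toEquiv ⟨y, hyU⟩, ?_, ?_⟩
  · apply Set.eq_singleton_iff_unique_mem.2
    refine ⟨(f.toEquiv ⟨y, hyU⟩).2, fun z hz => ?_⟩
    have h1 : (f.toEquiv.symm ⟨z, hz⟩ : ℕ) ∈ ({y} : Set ℕ) := by
      rw [← hU]
      exact (f.toEquiv.symm ⟨z, hz⟩).2
    have h2 : f.toEquiv.symm ⟨z, hz⟩ = ⟨y, hyU⟩ := Subtype.ext h1
    rw [← h2, Equiv.apply_symm_apply]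
  · rw [← f.typ_eq ⟨y, hyU⟩]
    exact hy

/-- the index set of the one-element structures, via indices -/
def OneIx (e : ℕ) : Prop :=
  StrCond e ∧ (∀ w : ℕ × ℕ, Fa e (cE w.1) ∨ Fa e (cE w.2) ∨ w.1 = w.2) ∧
  (∀ y, Fa e (cE y) ∨ ∃ p, Tr e (cP p y)) ∧
  (∀ w : (ℕ × ℕ) × ℕ, Fa e (cP w.1.1 w.2) ∨ Fa e (cP w.1.2 w.2) ∨ w.1.1 = w.1.2)

/-- the tag, via indices -/
def Tag1 (e n : ℕ) : Prop := ∃ y, Tr e (cP n y)

theorem tag1_arith : Arith 1 true (fun x : ℕ × ℕ => Tag1 x.1 x.2) :=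
  Arith.ex (k := 0) (p := fun u : (ℕ × ℕ) × ℕ => Tr u.1.1 (cP u.1.2 u.2))
    (tr_arith (by fun_prop) (by fun_prop))

theorem oneIx_arith : Arith 2 false OneIx := by
  have h1 : Arith 2 false (fun e : ℕ => ∀ w : ℕ × ℕ, Fa e (cE w.1) ∨ Fa e (cE w.2) ∨
      w.1 = w.2) :=
    Arith.all' (k := 1) (p := fun x : ℕ × (ℕ × ℕ) => Fa x.1 (cE x.2.1) ∨ Fa x.1 (cE x.2.2) ∨
      x.2.1 = x.2.2)
      ((fa_arith (by fun_prop) (by fun_prop)).or ((fa_arith (by fun_prop) (by fun_prop)).or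
        (eq_arith (by fun_prop) (by fun_prop))))
  have h2 : Arith 2 false (fun e : ℕ => ∀ y, Fa e (cE y) ∨ ∃ p, Tr e (cP p y)) :=
    Arith.all' (k := 1) (p := fun x : ℕ × ℕ => Fa x.1 (cE x.2) ∨ ∃ p, Tr x.1 (cP p x.2))
      ((fa_arith (by fun_prop) (by fun_prop)).or
        (Arith.ex (p := fun u : (ℕ × ℕ) × ℕ => Tr u.1.1 (cP u.2 u.1.2))
          (tr_arith (by fun_prop) (by fun_prop))))
  have h3 : Arith 2 false (fun e : ℕ => ∀ w : (ℕ × ℕ) × ℕ, Fa e (cP w.1.1 w.2) ∨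
      Fa e (cP w.1.2 w.2) ∨ w.1.1 = w.1.2) :=
    Arith.all' (k := 1) (p := fun x : ℕ × ((ℕ × ℕ) × ℕ) => Fa x.1 (cP x.2.1.1 x.2.2) ∨
      Fa x.1 (cP x.2.1.2 x.2.2) ∨ x.2.1.1 = x.2.1.2)
      ((fa_arith (by fun_prop) (by fun_prop)).or ((fa_arith (by fun_prop) (by fun_prop)).or
        (eq_arith (by fun_prop) (by fun_prop))))
  exact strCond_arith.and (h1.and (h2.and h3))

theorem tag1_iff {e n m : ℕ} {A : OStr ar1} (h : IsIndex e A) (hA : One n A) :
    Tag1 e m ↔ m = n := by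
  obtain ⟨y, hU, hy⟩ := hA
  constructor
  · rintro ⟨z, hz⟩
    rw [h.tr, cP_mem_diagram] at hz
    have hzU : z ∈ A.univ := mem_univ_of_mem_typ hz
    rw [hU, Set.mem_singleton_iff] at hzU
    subst hzU
    rw [hy] at hz
    exact hz
  · rintro rfl
    refine ⟨y, ?_⟩
    rw [h.tr, cP_mem_diagram, hy]
    exact Set.mem_singleton m

theorem oneIx_iff (e : ℕ) : OneIx e ↔ ∃ n A, One n A ∧ IsIndex e A := by
  constructor
  · rintro ⟨h0, h1, h2, h3⟩
    obtain ⟨A, hA⟩ := (strCond_iff e).1 h0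
    simp only [hA.fa, hA.tr, cP_mem_diagram, cE_mem_diagram] at h1 h2 h3
    obtain ⟨y, hy⟩ := A.nonempty
    obtain ⟨n, hn⟩ := (h2 y).resolve_left (not_not.2 hy)
    refine ⟨n, A, ⟨y, ?_, ?_⟩, hA⟩
    · apply Set.eq_singleton_iff_unique_mem.2
      refine ⟨hy, fun z hz => ?_⟩
      exact ((h1 (z, y)).resolve_left (not_not.2 hz)).resolve_left (not_not.2 hy)
    · apply Set.eq_singleton_iff_unique_mem.2
      refine ⟨hn, fun p hp => ?_⟩
      exact ((h3 ((p, n), y)).resolve_left (not_not.2 hp)).resolve_left (not_not.2 hn)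
  · rintro ⟨n, A, ⟨y, hU, hy⟩, hA⟩
    refine ⟨(strCond_iff e).2 ⟨A, hA⟩, ?_, ?_, ?_⟩ <;>
      simp only [hA.fa, hA.tr, cP_mem_diagram, cE_mem_diagram]
    · rintro ⟨z, w⟩
      simp only [hU, Set.mem_singleton_iff]
      by_cases hz : z = y
      · by_cases hw : w = y
        · exact Or.inr (Or.inr (hz.trans hw.symm))
        · exact Or.inr (Or.inl hw)
      · exact Or.inl hz
    · intro z
      by_cases hz : z ∈ A.univ
      · rw [hU, Set.mem_singleton_iff] at hz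
        subst hz
        exact Or.inr ⟨n, by rw [hy]; exact Set.mem_singleton n⟩
      · exact Or.inl hz
    · rintro ⟨⟨p, q⟩, z⟩
      simp only
      by_cases hp : p ∈ typ A z
      · by_cases hq : q ∈ typ A z
        · have hz : z ∈ A.univ := mem_univ_of_mem_typ hp
          rw [hU, Set.mem_singleton_iff] at hz
          subst hz
          rw [hy, Set.mem_singleton_iff] at hp hq
          exact Or.inr (Or.inr (hp.trans hq.symm))
        · exact Or.inr (Or.inl hq)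
      · exact Or.inl hp

theorem isoProblem_S_iff (S : ℕ → Prop) (z : ℕ × ℕ) : isoProblem (ClassS S) z ↔
    (OneIx z.1 ∧ OneIx z.2 ∧ ∀ n, ¬ Tag1 z.1 n ∨ Tag1 z.2 n) ∧ ∃ n, Tag1 z.1 n ∧ S n := by
  constructor
  · rintro ⟨A, ⟨n, hn, hA⟩, B, ⟨m, hm, hB⟩, ha, hb, hiso⟩
    rw [isom_one hA hB] at hiso
    subst hiso
    refine ⟨⟨(oneIx_iff _).2 ⟨n, A, hA, ha⟩, (oneIx_iff _).2 ⟨n, B, hB, hb⟩, fun k => ?_⟩,
      n, (tag1_iff ha hA).2 rfl, hn⟩
    rw [tag1_iff ha hA, tag1_iff hb hB]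
    exact (em (k = n)).symm
  · rintro ⟨⟨h1, h2, h3⟩, n, hn, hS⟩
    obtain ⟨n', A, hA, ha⟩ := (oneIx_iff _).1 h1
    obtain ⟨m, B, hB, hb⟩ := (oneIx_iff _).1 h2
    rw [tag1_iff ha hA] at hn
    subst hn
    have h4 := (h3 n).resolve_left (not_not.2 ((tag1_iff ha hA).2 rfl))
    rw [tag1_iff hb hB] at h4
    subst h4
    exact ⟨A, ⟨n, hS, hA⟩, B, ⟨n, hS, hB⟩, ha, hb, (isom_one hA hB).2 rfl⟩

theorem isoProblem_S_iff' (S : ℕ → Prop) (z : ℕ × ℕ) : isoProblem (ClassS S) z ↔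
    (OneIx z.1 ∧ OneIx z.2 ∧ ∀ n, ¬ Tag1 z.1 n ∨ Tag1 z.2 n) ∧ ∀ n, ¬ Tag1 z.1 n ∨ S n := by
  rw [isoProblem_S_iff]
  refine and_congr_right fun h => ?_
  obtain ⟨n, A, hA, ha⟩ := (oneIx_iff _).1 h.1
  simp only [tag1_iff ha hA]
  constructor
  · rintro ⟨k, rfl, hk⟩ l
    by_cases hl : l = k
    · exact Or.inr (hl ▸ hk)
    · exact Or.inl hl
  · intro h
    exact ⟨n, rfl, (h n).resolve_left (not_not.2 rfl)⟩

theorem base_arith : Arith 2 false (fun z : ℕ × ℕ =>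
    OneIx z.1 ∧ OneIx z.2 ∧ ∀ n, ¬ Tag1 z.1 n ∨ Tag1 z.2 n) := by
  have h3 : Arith 2 false (fun z : ℕ × ℕ => ∀ n, ¬ Tag1 z.1 n ∨ Tag1 z.2 n) := by
    refine Arith.all (k := 1) (p := fun u : (ℕ × ℕ) × ℕ => ¬ Tag1 u.1.1 u.2 ∨ Tag1 u.1.2 u.2) ?_
    refine Arith.or ?_ ?_
    · exact (tag1_arith.comp (f := fun u : (ℕ × ℕ) × ℕ => (u.1.1, u.2)) (by fun_prop)).not.succ
    · exact (tag1_arith.comp (f := fun u : (ℕ × ℕ) × ℕ => (u.1.2, u.2)) (by fun_prop)).succ
  exact (oneIx_arith.comp Computable.fst).and ((oneIx_arith.comp Computable.snd).and h3)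

/-! ### non-hardness -/

theorem classS_not_hard {S : ℕ → Prop} (hS : ∀ n, S n → C0 n) :
    ¬ ((fun e : ℕ => Univ 1 e e) ≤₀ isoProblem (ClassS S)) := by
  rintro ⟨f, hf, hfe⟩
  have hf1 : Computable (fun e => (f e).1) := Computable.fst.comp hf
  let G : List ℕ × ℕ → Prop := fun w =>
    (OneIx (f w.2).1 ∧ OneIx (f w.2).2 ∧ ∀ n, ¬ Tag1 (f w.2).1 n ∨ Tag1 (f w.2).2 n) ∧
      ∀ n, ¬ Tag1 (f w.2).1 n ∨ n ∈ w.1
  have hG : Arith 2 false G := by
    refine Arith.and ?_ ?_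
    · exact base_arith.comp (f := fun w : List ℕ × ℕ => f w.2) (hf.comp Computable.snd)
    · refine Arith.all (k := 1) (p := fun u : (List ℕ × ℕ) × ℕ =>
        ¬ Tag1 (f u.1.2).1 u.2 ∨ u.2 ∈ u.1.1) ?_
      refine Arith.or ?_ ?_
      · exact (tag1_arith.comp (f := fun u : (List ℕ × ℕ) × ℕ => ((f u.1.2).1, u.2))
          ((hf1.comp (Computable.snd.comp Computable.fst)).pair Computable.snd)).not.succ
      · refine Arith.of_computable ?_
        have hm : PrimrecPred (fun x : List ℕ × ℕ => x.2 ∈ x.1) := by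
          have := (PrimrecRel.exists_mem_list (R := fun a b : ℕ => a = b) Primrec.eq)
          exact this.of_eq (fun L b => by simp)
        exact ComputablePred.comp' hm.computablePred
          (f := fun u : (List ℕ × ℕ) × ℕ => (u.1.1, u.2))
          ((Computable.fst.comp Computable.fst).pair Computable.snd)
  obtain ⟨i, hi, hiG⟩ := exists_index hG.not
  refine no_escape (S := S) hS (tag := fun x => Tag1 x.1 x.2) tag1_arith
    (h := fun F => (f (i F)).1) (hf1.comp hi) ?_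
  intro F hF
  have hsub : G (F, i F) → isoProblem (ClassS S) (f (i F)) := by
    rintro ⟨h1, h2⟩
    rw [isoProblem_S_iff']
    exact ⟨h1, fun n => (h2 n).imp id (hF n)⟩
  have hnG : ¬ G (F, i F) := by
    intro hg
    have h1 := (hfe (i F)).2 (hsub hg)
    exact (hiG F (i F)).2 h1 hg
  have hE : isoProblem (ClassS S) (f (i F)) := by
    rw [← hfe]
    exact (hiG F (i F)).1 hnG
  obtain ⟨A, ⟨n, hn, hA⟩, B, ⟨m, hm, hB⟩, ha, hb, hiso⟩ := hE
  obtain rfl := (isom_one hA hB).1 hiso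
  refine ⟨⟨n, (tag1_iff ha hA).2 rfl⟩, fun k hk => ?_⟩
  obtain rfl := (tag1_iff ha hA).1 hk
  refine ⟨hn, fun hkF => hnG ⟨⟨(oneIx_iff _).2 ⟨k, A, hA, ha⟩,
    (oneIx_iff _).2 ⟨k, B, hB, hb⟩, fun l => ?_⟩, fun l => ?_⟩⟩
  · rw [tag1_iff ha hA, tag1_iff hb hB]
    exact (em (l = k)).symm
  · rw [tag1_iff ha hA]
    by_cases hl : l = k
    · exact Or.inr (hl ▸ hkF)
    · exact Or.inl hl

/-! ### the one-element structures are uniformly computable -/

/-- the one-element structure with tag `n` -/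
def one (n : ℕ) : OStr ar1 where
  univ := {0}
  nonempty := ⟨0, rfl⟩
  rel := fun p v => p = n ∧ v ⟨0, by simp [ar1]⟩ = 0
  rel_mem := by
    intro p v h i
    rw [eq_const p v]
    exact h.2

theorem one_one (n : ℕ) : One n (one n) := by
  refine ⟨0, rfl, ?_⟩
  ext p
  show (p = n ∧ (0 : ℕ) = 0) ↔ p = n
  simp

/-- its diagram -/
def Dg1 (z : ℕ × ℕ) : Prop := z.2 = cE 0 ∨ z.2 = cP z.1 0

theorem dg1_iff (n m : ℕ) : Dg1 (n, m) ↔ m ∈ (one n).diagram := by
  constructor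
  · rintro (h | h)
    · simp only at h
      rw [h, cE_mem_diagram]
      rfl
    · simp only at h
      rw [h, cP_mem_diagram]
      exact ⟨rfl, rfl⟩
  · rintro ⟨φ, rfl, hφ⟩
    cases φ with
    | eq i i' =>
      obtain ⟨rfl, h⟩ := hφ
      left
      have h0 : i = 0 := h
      subst h0
      exact cE_eq 0
    | rel p v =>
      have hφ' : p = n ∧ v ⟨0, by simp [ar1]⟩ = 0 := hφ
      right
      rw [eq_const p v, hφ'.2, hφ'.1]
      exact cP_eq n 0

theorem exists_one_indices :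
    ∃ g : ℕ → ℕ, Computable g ∧ ∀ n, IsIndex (g n) (one n) := by
  refine exists_indices (D := Dg1) ?_ dg1_iff
  refine ComputablePred.or' ?_ ?_
  · have : Arith 0 true (fun z : ℕ × ℕ => z.2 = cE 0) := eq_arith (by fun_prop) (by fun_prop)
    exact this
  · have : Arith 0 true (fun z : ℕ × ℕ => z.2 = cP z.1 0) :=
      eq_arith (by fun_prop) (by fun_prop)
    exact this

/-- closure properties of a level, and a properly `Γ` set -/
structure GoodLevel (Γ : Level) : Prop where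
  congr : ∀ {α : Type} [Primcodable α] {p q : α → Prop}, Γ.Mem p → (∀ a, p a ↔ q a) → Γ.Mem q
  comp : ∀ {α β : Type} [Primcodable α] [Primcodable β] {p : α → Prop}, Γ.Mem p →
    ∀ {f : β → α}, Computable f → Γ.Mem (fun b => p (f b))
  and : ∀ {α : Type} [Primcodable α] {p q : α → Prop}, Γ.Mem p → Γ.Mem q →
    Γ.Mem (fun a => p a ∧ q a)
  arith : ∀ {α : Type} [Primcodable α] {s : Bool} {p : α → Prop}, Arith 2 s p → Γ.Mem p
  quant : (∀ {α : Type} [Primcodable α] {p : α × ℕ → Prop}, Γ.Mem p →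
      Γ.Mem (fun a => ∃ x, p (a, x))) ∨
    ((∀ {α : Type} [Primcodable α] {p : α × ℕ → Prop}, Γ.Mem p →
      Γ.Mem (fun a => ∀ x, p (a, x))) ∧
      (∀ {α : Type} [Primcodable α] {p q : α → Prop}, Γ.Mem p → Γ.Mem q →
      Γ.Mem (fun a => p a ∨ q a)))
  proper : ∃ S : ℕ → Prop, Γ.Mem S ∧ ¬ Γ.Mem (fun n => ¬ S n)

theorem goodLevel_sigma (k : ℕ) : GoodLevel (.sigma (k + 3)) where
  congr := fun hp h => Arith.congr hp h
  comp := fun hp _ hf => Arith.comp hp hf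
  and := fun hp hq => Arith.and hp hq
  arith := fun hp => Arith.mono_lt (by omega) hp
  quant := Or.inl fun hp => Arith.exN hp
  proper := ⟨fun e => Univ (k + 2) e e,
    (univ_arith (k + 2)).comp (f := fun e : ℕ => (e, e)) (Computable.id.pair Computable.id),
    not_arith_diag (k + 2)⟩

theorem goodLevel_pi (k : ℕ) : GoodLevel (.pi (k + 3)) where
  congr := fun hp h => Arith.congr hp h
  comp := fun hp _ hf => Arith.comp hp hf
  and := fun hp hq => Arith.and hp hq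
  arith := fun hp => Arith.mono_lt (by omega) hp
  quant := Or.inr ⟨fun hp => Arith.allN hp, fun hp hq => Arith.or hp hq⟩
  proper := ⟨fun e => ¬ Univ (k + 2) e e,
    ((univ_arith (k + 2)).comp (f := fun e : ℕ => (e, e)) (Computable.id.pair Computable.id)).not,
    fun h => not_arith_diag (k + 2) (Arith.of_not (s := false) h)⟩

theorem goodLevel_sigma11 : GoodLevel .sigma11 where
  congr := fun hp h => IsSigma11.congr hp h
  comp := fun hp _ hf => IsSigma11.comp hp hf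
  and := fun hp hq => IsSigma11.and hp hq
  arith := fun hp => isSigma11_of_arith hp
  quant := Or.inl fun hp => IsSigma11.exN hp
  proper := ⟨fun e => Univ11 e e,
    univ11_isSigma11.comp (f := fun e : ℕ => (e, e)) (Computable.id.pair Computable.id),
    not_isSigma11_diag⟩

theorem main_level (Γ : Level) (hΓ : GoodLevel Γ) :
    ∃ K : Set (OStr ar1), IsoClosed K ∧ ProperlyAt Γ (isoProblem K) ∧
      ¬ ((fun e : ℕ => Univ 1 e e) ≤₀ isoProblem K) := by
  obtain ⟨S', hS', hnS'⟩ := hΓ.proper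
  let S : ℕ → Prop := fun n => C0 n ∧ S' n.unpair.1
  have hC0 : Γ.Mem C0 := hΓ.arith (Arith.succ (s' := false) C0_arith)
  have hSm : Γ.Mem S := hΓ.and hC0 (hΓ.comp hS' (f := fun n : ℕ => n.unpair.1) (by fun_prop))
  have hmem : Γ.Mem (isoProblem (ClassS S)) := by
    rcases hΓ.quant with hq | ⟨hq, hor⟩
    · refine hΓ.congr ?_ (fun z => (isoProblem_S_iff S z).symm)
      refine hΓ.and (hΓ.arith base_arith) ?_
      refine hq (p := fun u : (ℕ × ℕ) × ℕ => Tag1 u.1.1 u.2 ∧ S u.2) ?_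
      refine hΓ.and ?_ (hΓ.comp hSm (f := fun u : (ℕ × ℕ) × ℕ => u.2) (by fun_prop))
      exact hΓ.arith (s := true) (tag1_arith.comp (f := fun u : (ℕ × ℕ) × ℕ => (u.1.1, u.2))
        (by fun_prop)).succ
    · refine hΓ.congr ?_ (fun z => (isoProblem_S_iff' S z).symm)
      refine hΓ.and (hΓ.arith base_arith) ?_
      refine hq (p := fun u : (ℕ × ℕ) × ℕ => ¬ Tag1 u.1.1 u.2 ∨ S u.2) ?_
      refine hor ?_ (hΓ.comp hSm (f := fun u : (ℕ × ℕ) × ℕ => u.2) (by fun_prop))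
      exact hΓ.arith (s := true) (tag1_arith.comp (f := fun u : (ℕ × ℕ) × ℕ => (u.1.1, u.2))
        (by fun_prop)).not.succ
  refine ⟨ClassS S, isoClosed_S S, ⟨hmem, ?_⟩, classS_not_hard (fun n hn => hn.1)⟩
  rintro ⟨-, hneg⟩
  obtain ⟨g, hg, hgi⟩ := exists_one_indices
  apply hnS'
  have hkey : ∀ n, isoProblem (ClassS S) (g n, g n) ↔ S n := by
    intro n
    constructor
    · rintro ⟨A, ⟨m, hm, hA⟩, B, hB, hiA, hiB, hiso⟩
      have eA := hiA.unique (hgi n)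
      have := (isom_one hA (eA ▸ one_one n)).1 ⟨⟨Equiv.refl _, fun i v => Iff.rfl⟩⟩
      exact this ▸ hm
    · intro hn
      exact ⟨one n, ⟨n, hn, one_one n⟩, one n, ⟨n, hn, one_one n⟩, hgi n, hgi n,
        (isom_one (one_one n) (one_one n)).2 rfl⟩
  have hp : Computable (fun u : ℕ × ℕ => Nat.pair u.1 u.2) := by fun_prop
  have h1 : Γ.Mem (fun u : ℕ × ℕ =>
      ¬ isoProblem (ClassS S) (g (Nat.pair u.1 u.2), g (Nat.pair u.1 u.2))) :=
    hΓ.comp hneg (f := fun u : ℕ × ℕ => (g (Nat.pair u.1 u.2), g (Nat.pair u.1 u.2)))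
      ((hg.comp hp).pair (hg.comp hp))
  rcases hΓ.quant with hq | ⟨hq, hor⟩
  · refine hΓ.congr (hq (p := fun u : ℕ × ℕ => C0 (Nat.pair u.1 u.2) ∧
      ¬ isoProblem (ClassS S) (g (Nat.pair u.1 u.2), g (Nat.pair u.1 u.2))) ?_) ?_
    · exact hΓ.and (hΓ.comp hC0 hp) h1
    · intro i
      simp only [hkey]
      constructor
      · rintro ⟨z, hz, hns⟩ hs
        exact hns ⟨hz, by simpa using hs⟩
      · intro hi
        obtain ⟨z, hz⟩ := exists_C0 i
        exact ⟨z, hz, fun hs => hi (by simpa using hs.2)⟩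
  · refine hΓ.congr (hq (p := fun u : ℕ × ℕ => ¬ C0 (Nat.pair u.1 u.2) ∨
      ¬ isoProblem (ClassS S) (g (Nat.pair u.1 u.2), g (Nat.pair u.1 u.2))) ?_) ?_
    · refine hor (hΓ.arith (s := false) ?_) h1
      exact ((C0_arith.comp hp).not).succ
    · intro i
      simp only [hkey]
      constructor
      · intro h hs
        obtain ⟨z, hz⟩ := exists_C0 i
        rcases h z with h' | h'
        · exact h' hz
        · exact h' ⟨hz, by simpa using hs⟩
      · intro hi z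
        exact Or.inr fun hs => hi (by simpa using hs.2)

end Pool.Agent.MPbe00aa
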