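import Pool.Agent.MPbe00aa.Defs

/-!
Arithmetical hierarchy of predicates on `Primcodable` types, with closure properties,
a universal predicate at every level `Σ⁰_{k+1}` and the `s-m-n` property.
-/

namespace Pool.Agent.MPbe00aa

open Nat.Partrec (Code)
open Nat.Partrec.Code Denumerable Encodable

variable {α β γ : Type} [Primcodable α] [Primcodable β] [Primcodable γ]

theorem ComputablePred.comp' {p : α → Prop} (hp : ComputablePred p) {f : β → α}
    (hf : Computable f) : ComputablePred (fun b => p (f b)) := by
  classical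
  obtain ⟨h, hc⟩ := hp
  refine ⟨fun b => h (f b), ?_⟩
  exact hc.comp hf

theorem ComputablePred.and' {p q : α → Prop} (hp : ComputablePred p) (hq : ComputablePred q) :
    ComputablePred (fun a => p a ∧ q a) := by
  obtain ⟨hpd, hpc⟩ := hp
  obtain ⟨hqd, hqc⟩ := hq
  refine ⟨fun a => inferInstance, ?_⟩
  have := (Primrec.and.to_comp.comp hpc hqc)
  refine this.of_eq fun a => ?_
  simp

theorem ComputablePred.or' {p q : α → Prop} (hp : ComputablePred p) (hq : ComputablePred q) :
    ComputablePred (fun a => p a ∨ q a) := by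
  obtain ⟨hpd, hpc⟩ := hp
  obtain ⟨hqd, hqc⟩ := hq
  refine ⟨fun a => inferInstance, ?_⟩
  have := (Primrec.or.to_comp.comp hpc hqc)
  refine this.of_eq fun a => ?_
  simp

namespace Arith

theorem congr {k : ℕ} {s : Bool} {p q : α → Prop} (hp : Arith k s p) (h : ∀ a, p a ↔ q a) :
    Arith k s q := by
  have : p = q := funext fun a => propext (h a)
  exact this ▸ hp

theorem comp {k : ℕ} : ∀ {s : Bool} {α β : Type} [Primcodable α] [Primcodable β] {p : α → Prop},
    Arith k s p → ∀ {f : β → α}, Computable f → Arith k s (fun b => p (f b)) := by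
  induction k with
  | zero =>
    intro s α β _ _ p hp f hf
    exact ComputablePred.comp' hp hf
  | succ k ih =>
    intro s α β _ _ p hp f hf
    cases s with
    | true =>
      obtain ⟨q, hq, h⟩ := hp
      refine ⟨fun bx => q (f bx.1, bx.2), ?_, fun b => h (f b)⟩
      exact ih hq (f := fun bx : β × ℕ => (f bx.1, bx.2))
        ((hf.comp Computable.fst).pair Computable.snd)
    | false =>
      obtain ⟨q, hq, h⟩ := hp
      refine ⟨fun bx => q (f bx.1, bx.2), ?_, fun b => h (f b)⟩
      exact ih hq (f := fun bx : β × ℕ => (f bx.1, bx.2))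
        ((hf.comp Computable.fst).pair Computable.snd)

theorem not {k : ℕ} : ∀ {s : Bool} {α : Type} [Primcodable α] {p : α → Prop},
    Arith k s p → Arith k (!s) (fun a => ¬ p a) := by
  induction k with
  | zero =>
    intro s α _ p hp
    exact ComputablePred.not hp
  | succ k ih =>
    intro s α _ p hp
    cases s with
    | true =>
      obtain ⟨q, hq, h⟩ := hp
      exact ⟨fun x => ¬ q x, ih hq, fun a => by
        show ¬ p a ↔ ∀ x, ¬ q (a, x)
        rw [h a]; push Not; rfl⟩
    | false =>
      obtain ⟨q, hq, h⟩ := hp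
      exact ⟨fun x => ¬ q x, ih hq, fun a => by
        show ¬ p a ↔ ∃ x, ¬ q (a, x)
        rw [h a]; push Not; rfl⟩

theorem of_not {k : ℕ} {s : Bool} {p : α → Prop} (h : Arith k s (fun a => ¬ p a)) :
    Arith k (!s) p := by
  have := h.not
  exact this.congr fun a => not_not

/-- Level `k` is contained in level `k + 1` (dummy quantifier of either kind). -/
theorem succ {k : ℕ} : ∀ {s s' : Bool} {α : Type} [Primcodable α] {p : α → Prop},
    Arith k s p → Arith (k + 1) s' p := by
  induction k with
  | zero =>
    intro s s' α _ p hp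
    have h1 : ComputablePred (fun ax : α × ℕ => p ax.1) := ComputablePred.comp' hp Computable.fst
    cases s' with
    | true => exact ⟨fun ax => p ax.1, h1, fun a => by simp⟩
    | false => exact ⟨fun ax => p ax.1, h1, fun a => by simp⟩
  | succ k ih =>
    intro s s' α _ p hp
    -- dummy quantifier in front, or push the dummy quantifier inside
    have hfst : Arith (k + 1) s (fun ax : α × ℕ => p ax.1) := hp.comp Computable.fst
    cases s <;> cases s'
    · -- Π_{k+1} to Π_{k+2}: push inside
      obtain ⟨q, hq, h⟩ := hp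
      exact ⟨q, ih hq, h⟩
    · exact ⟨fun ax => p ax.1, hfst, fun a => by simp⟩
    · exact ⟨fun ax => p ax.1, hfst, fun a => by simp⟩
    · obtain ⟨q, hq, h⟩ := hp
      exact ⟨q, ih hq, h⟩

theorem mono_lt {k l : ℕ} (h : k < l) {s s' : Bool} {p : α → Prop} (hp : Arith k s p) :
    Arith l s' p := by
  induction l, h using Nat.le_induction with
  | base => exact hp.succ
  | succ l _ ih => exact ih.succ (s := s')

theorem of_computable {k : ℕ} {s : Bool} {p : α → Prop} (hp : ComputablePred p) :
    Arith k s p := by
  cases k with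
  | zero => exact hp
  | succ k => exact mono_lt (k := 0) (s := true) (Nat.succ_pos k) hp

theorem and {k : ℕ} : ∀ {s : Bool} {α : Type} [Primcodable α] {p q : α → Prop},
    Arith k s p → Arith k s q → Arith k s (fun a => p a ∧ q a) := by
  induction k with
  | zero =>
    intro s α _ p q hp hq
    exact ComputablePred.and' hp hq
  | succ k ih =>
    intro s α _ p q hp hq
    cases s with
    | true =>
      obtain ⟨p', hp', h1⟩ := hp
      obtain ⟨q', hq', h2⟩ := hq
      refine ⟨fun ax => p' (ax.1, ax.2.unpair.1) ∧ q' (ax.1, ax.2.unpair.2), ?_, ?_⟩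
      · refine ih (hp'.comp ?_) (hq'.comp ?_)
        · exact Computable.fst.pair
            (Computable.fst.comp (Primrec.unpair.to_comp.comp Computable.snd))
        · exact Computable.fst.pair
            (Computable.snd.comp (Primrec.unpair.to_comp.comp Computable.snd))
      · intro a
        show p a ∧ q a ↔ ∃ x : ℕ, p' (a, x.unpair.1) ∧ q' (a, x.unpair.2)
        rw [h1 a, h2 a]
        constructor
        · rintro ⟨⟨x, hx⟩, ⟨y, hy⟩⟩
          exact ⟨Nat.pair x y, by simpa using ⟨hx, hy⟩⟩
        · rintro ⟨x, hx, hy⟩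
          exact ⟨⟨_, hx⟩, ⟨_, hy⟩⟩
    | false =>
      obtain ⟨p', hp', h1⟩ := hp
      obtain ⟨q', hq', h2⟩ := hq
      refine ⟨fun ax => p' ax ∧ q' ax, ih hp' hq', ?_⟩
      intro a
      show p a ∧ q a ↔ ∀ x : ℕ, p' (a, x) ∧ q' (a, x)
      rw [h1 a, h2 a]
      exact (forall_and).symm

theorem or {k : ℕ} {s : Bool} {p q : α → Prop}
    (hp : Arith k s p) (hq : Arith k s q) : Arith k s (fun a => p a ∨ q a) := by
  have h := (hp.not.and hq.not).not
  rw [Bool.not_not] at h
  refine h.congr fun a => ?_
  tauto

theorem imp {k : ℕ} {s : Bool} {p q : α → Prop}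
    (hp : Arith k (!s) p) (hq : Arith k s q) : Arith k s (fun a => p a → q a) := by
  have h := hp.not
  rw [Bool.not_not] at h
  refine (h.or hq).congr fun a => ?_
  tauto

theorem exN {k : ℕ} {p : α × ℕ → Prop} (hp : Arith (k + 1) true p) :
    Arith (k + 1) true (fun a => ∃ x, p (a, x)) := by
  obtain ⟨q, hq, h⟩ := hp
  refine ⟨fun ax => q ((ax.1, ax.2.unpair.1), ax.2.unpair.2), ?_, ?_⟩
  · refine hq.comp ?_
    exact (Computable.fst.pair
            (Computable.fst.comp (Primrec.unpair.to_comp.comp Computable.snd))).pair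
            (Computable.snd.comp (Primrec.unpair.to_comp.comp Computable.snd))
  · intro a
    constructor
    · rintro ⟨x, hx⟩
      obtain ⟨y, hy⟩ := (h _).1 hx
      exact ⟨Nat.pair x y, by simpa using hy⟩
    · rintro ⟨x, hx⟩
      exact ⟨x.unpair.1, (h _).2 ⟨_, hx⟩⟩

theorem allN {k : ℕ} {p : α × ℕ → Prop} (hp : Arith (k + 1) false p) :
    Arith (k + 1) false (fun a => ∀ x, p (a, x)) := by
  have h := (exN (p := fun a => ¬ p a) hp.not).not
  refine h.congr fun a => ?_
  push Not
  rfl

/-- existential quantification over an inhabited `Primcodable` type -/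
theorem ex {δ : Type} [Primcodable δ] [Inhabited δ] {k : ℕ} {p : α × δ → Prop}
    (hp : Arith (k + 1) true p) : Arith (k + 1) true (fun a => ∃ x, p (a, x)) := by
  have h : Arith (k + 1) true
      (fun an : α × ℕ => p (an.1, (decode (α := δ) an.2).getD default)) := by
    refine hp.comp (f := fun an : α × ℕ => (an.1, (decode (α := δ) an.2).getD default)) ?_
    refine Computable.fst.pair ?_
    exact Computable.option_getD (Computable.decode.comp Computable.snd)
      (Computable.const default)
  refine (exN h).congr fun a => ?_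
  constructor
  · rintro ⟨x, hx⟩
    exact ⟨_, hx⟩
  · rintro ⟨x, hx⟩
    exact ⟨encode x, by simpa using hx⟩

theorem all {δ : Type} [Primcodable δ] [Inhabited δ] {k : ℕ} {p : α × δ → Prop}
    (hp : Arith (k + 1) false p) : Arith (k + 1) false (fun a => ∀ x, p (a, x)) := by
  have h := (ex (p := fun a => ¬ p a) hp.not).not
  refine h.congr fun a => ?_
  push Not
  rfl

/-- `∀` in front of a lower level. -/
theorem all' {δ : Type} [Primcodable δ] [Inhabited δ] {k : ℕ} {p : α × δ → Prop}
    (hp : Arith k true p) : Arith (k + 1) false (fun a => ∀ x, p (a, x)) :=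
  all (hp.succ)

theorem ex' {δ : Type} [Primcodable δ] [Inhabited δ] {k : ℕ} {p : α × δ → Prop}
    (hp : Arith k false p) : Arith (k + 1) true (fun a => ∃ x, p (a, x)) :=
  ex (hp.succ)

end Arith

/-! ### universal predicates -/

/-- `Univ k e n`: the universal `Σ⁰_{k+1}` predicate. -/
def Univ : ℕ → ℕ → ℕ → Prop
  | 0, e, n => ((ofNat Code e).eval n).Dom
  | k + 1, e, n => ∃ x, ¬ Univ k e (Nat.pair n x)

theorem arith_one_of_re {p : α → Prop} (hp : REPred p) : Arith 1 true p := by
  -- `p` is the domain of a partial recursive function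
  obtain ⟨c, hc⟩ := Nat.Partrec.Code.exists_code.1 (hp : Partrec _)
  refine ⟨fun ax => (evaln ax.2 c (encode ax.1)).isSome = true, ?_, ?_⟩
  · refine ⟨fun _ => inferInstance, ?_⟩
    have h1 : Primrec (fun ax : α × ℕ => evaln ax.2 c (encode ax.1)) :=
      Nat.Partrec.Code.primrec_evaln.comp
        ((Primrec.snd.pair (Primrec.const c)).pair (Primrec.encode.comp Primrec.fst))
    have h2 : Primrec (fun ax : α × ℕ => (evaln ax.2 c (encode ax.1)).isSome) :=
      Primrec.option_isSome.comp h1
    refine h2.to_comp.of_eq fun a => ?_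
    simp
  · intro a
    have key : (c.eval (encode a)).Dom ↔ p a := by
      rw [hc]
      simp [Part.assert]
    rw [← key]
    constructor
    · intro hd
      obtain ⟨k, hk⟩ := evaln_complete.1 (Part.get_mem hd)
      refine ⟨k, ?_⟩
      simp only [Option.mem_def] at hk
      simp [hk]
    · rintro ⟨k, hk⟩
      obtain ⟨x, hx⟩ := Option.isSome_iff_exists.1 hk
      exact Part.dom_iff_mem.2 ⟨x, evaln_sound hx⟩

theorem re_of_arith_one {p : α → Prop} (hp : Arith 1 true p) : REPred p := by
  obtain ⟨q, hq, h⟩ := hp
  obtain ⟨hd, hc⟩ := hq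
  have h1 : Partrec (fun a : α => Nat.rfind (fun n => (Part.some (decide (q (a, n))) : Part Bool))) := by
    refine Partrec.rfind ?_
    exact (hc.comp (Computable.fst.pair Computable.snd)).partrec
  refine (Partrec.dom_re h1).of_eq fun a => ?_
  rw [h a]
  constructor
  · intro hd'
    obtain ⟨n, hn⟩ := Part.dom_iff_mem.1 hd'
    have := Nat.rfind_spec hn
    exact ⟨n, by simpa using this⟩
  · rintro ⟨n, hn⟩
    have : (Nat.rfind (fun n => (Part.some (decide (q (a, n))) : Part Bool))).Dom := by
      apply Nat.rfind_dom.2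
      exact ⟨n, by simpa using hn, fun _ => trivial⟩
    exact this

theorem arith_one_iff {p : α → Prop} : Arith 1 true p ↔ REPred p :=
  ⟨re_of_arith_one, arith_one_of_re⟩

theorem univ_arith (k : ℕ) : Arith (k + 1) true (fun x : ℕ × ℕ => Univ k x.1 x.2) := by
  induction k with
  | zero =>
    refine arith_one_of_re ?_
    have h : Partrec (fun x : ℕ × ℕ => (ofNat Code x.1).eval x.2) :=
      Nat.Partrec.Code.eval_part.comp ((Computable.ofNat Code).comp Computable.fst) Computable.snd
    exact Partrec.dom_re h
  | succ k ih =>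
    refine ⟨fun y : (ℕ × ℕ) × ℕ => ¬ Univ k y.1.1 (Nat.pair y.1.2 y.2), ?_, fun a => Iff.rfl⟩
    have h := ih.not
    exact h.comp (f := fun y : (ℕ × ℕ) × ℕ => (y.1.1, Nat.pair y.1.2 y.2))
      ((Computable.fst.comp Computable.fst).pair
        (Primrec₂.natPair.to_comp.comp (Computable.snd.comp Computable.fst) Computable.snd))

/-- universality together with the `s-m-n` property -/
theorem exists_index {k : ℕ} : ∀ {α : Type} [Primcodable α] {p : α × ℕ → Prop},
    Arith (k + 1) true p → ∃ i : α → ℕ, Computable i ∧ ∀ a n, p (a, n) ↔ Univ k (i a) n := by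
  induction k with
  | zero =>
    intro α _ p hp
    have hre : Partrec (fun a : α × ℕ => Part.assert (p a) fun _ => Part.some ()) :=
      re_of_arith_one hp
    obtain ⟨c, hc⟩ := Nat.Partrec.Code.exists_code.1 (hre : Partrec _)
    refine ⟨fun a => encode (curry c (encode a)), ?_, ?_⟩
    · exact Computable.encode.comp
        (Nat.Partrec.Code.primrec₂_curry.to_comp.comp (Computable.const c) Computable.encode)
    · intro a n
      simp only [Univ, ofNat_encode]
      rw [eval_curry]
      have he : Nat.pair (encode a) n = encode (a, n) := by simp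
      rw [he, hc]
      simp [Part.assert]
  | succ k ih =>
    intro α _ p hp
    obtain ⟨q, hq, h⟩ := hp
    have h1 : Arith (k + 1) true
        (fun y : α × ℕ => ¬ q ((y.1, y.2.unpair.1), y.2.unpair.2)) := by
      have h2 := hq.not
      exact h2.comp (f := fun y : α × ℕ => ((y.1, y.2.unpair.1), y.2.unpair.2))
        ((Computable.fst.pair (Computable.fst.comp (Primrec.unpair.to_comp.comp Computable.snd))).pair
          (Computable.snd.comp (Primrec.unpair.to_comp.comp Computable.snd)))
    obtain ⟨i, hi, h3⟩ := ih h1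
    refine ⟨i, hi, fun a n => ?_⟩
    rw [h (a, n)]
    simp only [Univ]
    refine exists_congr fun x => ?_
    have := h3 a (Nat.pair n x)
    simp only [Nat.unpair_pair] at this
    rw [← this, not_not]

/-- the diagonal set is properly `Π⁰_{k+1}` -/
theorem not_arith_diag (k : ℕ) : ¬ Arith (k + 1) true (fun e : ℕ => ¬ Univ k e e) := by
  intro h
  obtain ⟨i, -, hi⟩ := exists_index (α := Unit) (p := fun x => ¬ Univ k x.2 x.2)
    (h.comp Computable.snd)
  have := hi () (i ())
  simp at this

end Pool.Agent.MPbe00aa
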