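import Pool.Agent.MPbe00aa.Normal
import Pool.Agent.MPbe00aa.Defs

/-!
The class `K` with index set `Π⁰₂` whose isomorphism problem is properly `Π⁰₃` and not complete.
-/

namespace Pool.Agent.MPbe00aa

open Nat.Partrec (Code)
open Nat.Partrec.Code Denumerable Encodable

/-- The language with infinitely many unary relation symbols. -/
def ar1 : ℕ → ℕ := fun _ => 1

/-- The type of `y` in `A`: the set of the unary relations true of `y`. -/
def typ (A : OStr ar1) (y : ℕ) : Set ℕ := {p | A.rel p (fun _ => y)}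

/-- The number of the relation symbol attached to `n`, `x`, `s`. -/
def ix (n x s : ℕ) : ℕ := Nat.pair n (Nat.pair x s)

/-- The type of an element of row `x` with tag `n` and label set `L`. -/
def ty (n x : ℕ) (L : Set ℕ) : Set ℕ := {p | p = ix n x 0 ∨ ∃ s ∈ L, p = ix n x (s + 1)}

/-- The structures with tag `n`. -/
def InKn (n : ℕ) (A : OStr ar1) : Prop :=
  (∀ y ∈ A.univ, ∀ y' ∈ A.univ, typ A y = typ A y' → y = y') ∧
  (∀ y ∈ A.univ, ∃ x, typ A y = ty n x {s | T n.unpair.1 x s} ∨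
    ∃ q, typ A y = ty n x {s | T n.unpair.1 x s ∧ s < q}) ∧
  (∀ x q, ∃ y ∈ A.univ, typ A y = ty n x {s | T n.unpair.1 x s ∧ s < q})

/-- The class `K`. -/
def ClassK : Set (OStr ar1) := {A | ∃ n, C0 n ∧ InKn n A}

theorem ix_inj {n x s n' x' s' : ℕ} : ix n x s = ix n' x' s' ↔ n = n' ∧ x = x' ∧ s = s' := by
  simp [ix, Nat.pair_eq_pair]

theorem exists_ix (p : ℕ) : ∃ n x s, p = ix n x s :=
  ⟨p.unpair.1, p.unpair.2.unpair.1, p.unpair.2.unpair.2, by simp [ix]⟩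

theorem mem_ty {n x : ℕ} {L : Set ℕ} {n' x' s' : ℕ} :
    ix n' x' s' ∈ ty n x L ↔ n' = n ∧ x' = x ∧ (s' = 0 ∨ ∃ s ∈ L, s' = s + 1) := by
  simp only [ty, Set.mem_setOf_eq, ix_inj]
  constructor
  · rintro (⟨rfl, rfl, rfl⟩ | ⟨s, hs, rfl, rfl, rfl⟩)
    · exact ⟨rfl, rfl, Or.inl rfl⟩
    · exact ⟨rfl, rfl, Or.inr ⟨s, hs, rfl⟩⟩
  · rintro ⟨rfl, rfl, rfl | ⟨s, hs, rfl⟩⟩
    · exact Or.inl ⟨rfl, rfl, rfl⟩
    · exact Or.inr ⟨s, hs, rfl, rfl, rfl⟩

theorem mem_ty_zero {n x : ℕ} {L : Set ℕ} : ix n x 0 ∈ ty n x L := by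
  simp [mem_ty]

theorem mem_ty_succ {n x : ℕ} {L : Set ℕ} {s : ℕ} : ix n x (s + 1) ∈ ty n x L ↔ s ∈ L := by
  simp [mem_ty]

theorem ty_eq {n x : ℕ} {L : Set ℕ} {n' x' : ℕ} {L' : Set ℕ} (h : ty n x L = ty n' x' L') :
    n = n' ∧ x = x' ∧ L = L' := by
  have h0 : ix n x 0 ∈ ty n' x' L' := h ▸ mem_ty_zero
  obtain ⟨rfl, rfl, -⟩ := mem_ty.1 h0
  refine ⟨rfl, rfl, ?_⟩
  ext s
  rw [← mem_ty_succ (n := n) (x := x) (L := L), h, mem_ty_succ]

/-- The conditions used for computing the complexity of the index set. -/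
structure Good (A : OStr ar1) : Prop where
  F : ∀ y, y ∈ A.univ → ∃ n x, ix n x 0 ∈ typ A y
  G : ∀ y y' n x s n' x' s', ix n x s ∈ typ A y → ix n' x' s' ∈ typ A y' →
    n = n' ∧ (y = y' → x = x')
  H : ∀ n x y, ix n x 0 ∈ typ A y → C0 n
  I : ∀ n x s y, ix n x (s + 1) ∈ typ A y → ix n x 0 ∈ typ A y ∧ T n.unpair.1 x s
  J : ∀ n x s s' y, ix n x (s + 1) ∈ typ A y → s' < s → T n.unpair.1 x s' →
    ix n x (s' + 1) ∈ typ A y
  D : ∀ y y', y ∈ A.univ → y' ∈ A.univ → y ≠ y' → ∃ p, ¬ (p ∈ typ A y ↔ p ∈ typ A y')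
  L : ∀ n x0 y0 x s, ix n x0 0 ∈ typ A y0 → T n.unpair.1 x s →
    ∃ y, ix n x 0 ∈ typ A y ∧ (∀ s' < s, T n.unpair.1 x s' → ix n x (s' + 1) ∈ typ A y) ∧
      ix n x (s + 1) ∉ typ A y
  M : ∀ n x0 y0 x q, ix n x0 0 ∈ typ A y0 →
    ∃ y, ix n x 0 ∈ typ A y ∧ ∀ s < q, T n.unpair.1 x s → ix n x (s + 1) ∈ typ A y

theorem mem_univ_of_mem_typ {A : OStr ar1} {p y : ℕ} (h : p ∈ typ A y) : y ∈ A.univ :=
  A.rel_mem p (fun _ => y) h ⟨0, by simp [ar1]⟩

theorem Good.typ_eq {A : OStr ar1} (hA : Good A) {n x y : ℕ} (h : ix n x 0 ∈ typ A y) :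
    typ A y = ty n x {s | ix n x (s + 1) ∈ typ A y} := by
  ext p
  obtain ⟨n', x', s', rfl⟩ := exists_ix p
  rw [mem_ty]
  constructor
  · intro hp
    obtain ⟨h1, h2⟩ := hA.G y y n' x' s' n x 0 hp h
    have h2 := h2 rfl
    subst h1 h2
    refine ⟨rfl, rfl, ?_⟩
    cases s' with
    | zero => exact Or.inl rfl
    | succ s' => exact Or.inr ⟨s', hp, rfl⟩
  · rintro ⟨rfl, rfl, rfl | ⟨s, hs, rfl⟩⟩
    · exact h
    · exact hs

theorem good_iff (A : OStr ar1) : Good A ↔ A ∈ ClassK := by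
  classical
  constructor
  · intro hA
    obtain ⟨y0, hy0⟩ := A.nonempty
    obtain ⟨n, x0, h0⟩ := hA.F y0 hy0
    refine ⟨n, hA.H n x0 y0 h0, ?_, ?_, ?_⟩
    · intro y hy y' hy' heq
      by_contra hne
      obtain ⟨p, hp⟩ := hA.D y y' hy hy' hne
      exact hp (by rw [heq])
    · intro y hy
      obtain ⟨n', x, h1⟩ := hA.F y hy
      obtain ⟨rfl, -⟩ := hA.G y y0 n' x 0 n x0 0 h1 h0
      refine ⟨x, ?_⟩
      rw [hA.typ_eq h1]
      by_cases hall : ∀ s, T n'.unpair.1 x s → ix n' x (s + 1) ∈ typ A y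
      · left
        congr 1
        ext s
        exact ⟨fun hs => (hA.I n' x s y hs).2, fun hs => hall s hs⟩
      · right
        push Not at hall
        have hspec := Nat.find_spec hall
        have hmin := fun m hm => Nat.find_min hall (m := m) hm
        set q := Nat.find hall
        refine ⟨q, ?_⟩
        congr 1
        ext s
        constructor
        · intro hs
          refine ⟨(hA.I n' x s y hs).2, ?_⟩
          by_contra hle
          rcases Nat.lt_or_ge q s with hlt | hge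
          · exact hspec.2 (hA.J n' x s q y hs hlt hspec.1)
          · have : s = q := by omega
            subst this
            exact hspec.2 hs
        · rintro ⟨hs1, hs2⟩
          by_contra hcon
          exact hmin s hs2 ⟨hs1, hcon⟩
    · intro x q
      by_cases hex : ∃ s, T n.unpair.1 x s ∧ q ≤ s
      · have hspec := Nat.find_spec hex
        have hmin := fun m hm => Nat.find_min hex (m := m) hm
        set s := Nat.find hex
        obtain ⟨y, hy1, hy2, hy3⟩ := hA.L n x0 y0 x s h0 hspec.1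
        refine ⟨y, mem_univ_of_mem_typ hy1, ?_⟩
        rw [hA.typ_eq hy1]
        congr 1
        ext s'
        constructor
        · intro hs'
          have hT := (hA.I n x s' y hs').2
          refine ⟨hT, ?_⟩
          by_contra hle
          have hle : q ≤ s' := not_lt.1 hle
          -- `s ≤ s'`
          have hss : s ≤ s' := by
            by_contra hlt
            exact hmin s' (not_le.1 hlt) ⟨hT, hle⟩
          rcases Nat.eq_or_lt_of_le hss with heq | hlt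
          · exact hy3 (heq ▸ hs')
          · exact hy3 (hA.J n x s' s y hs' hlt hspec.1)
        · rintro ⟨hT, hlt⟩
          exact hy2 s' (lt_of_lt_of_le hlt hspec.2) hT
      · push Not at hex
        obtain ⟨y, hy1, hy2⟩ := hA.M n x0 y0 x q h0
        refine ⟨y, mem_univ_of_mem_typ hy1, ?_⟩
        rw [hA.typ_eq hy1]
        congr 1
        ext s'
        constructor
        · intro hs'
          have hT := (hA.I n x s' y hs').2
          exact ⟨hT, hex s' hT⟩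
        · rintro ⟨hT, hlt⟩
          exact hy2 s' hlt hT
  · rintro ⟨n, hn, h1, h2, h3⟩
    -- every element has a row and a label set
    have key : ∀ y p, p ∈ typ A y → ∃ x L, typ A y = ty n x L ∧
        (∀ s ∈ L, T n.unpair.1 x s) ∧ (∀ s ∈ L, ∀ s' < s, T n.unpair.1 x s' → s' ∈ L) := by
      intro y p hp
      obtain ⟨x, h | ⟨q, h⟩⟩ := h2 y (mem_univ_of_mem_typ hp)
      · exact ⟨x, _, h, fun s hs => hs, fun s _ s' _ hs' => hs'⟩
      · exact ⟨x, _, h, fun s hs => hs.1, fun s hs s' hlt hs' => ⟨hs', hlt.trans hs.2⟩⟩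
    constructor
    · intro y hy
      obtain ⟨x, h | ⟨q, h⟩⟩ := h2 y hy
      · exact ⟨n, x, h ▸ mem_ty_zero⟩
      · exact ⟨n, x, h ▸ mem_ty_zero⟩
    · intro y y' n1 x1 s1 n2 x2 s2 hp1 hp2
      obtain ⟨x, L, h, -, -⟩ := key y _ hp1
      obtain ⟨x', L', h', -, -⟩ := key y' _ hp2
      rw [h] at hp1
      rw [h'] at hp2
      obtain ⟨rfl, rfl, -⟩ := mem_ty.1 hp1
      obtain ⟨rfl, rfl, -⟩ := mem_ty.1 hp2
      refine ⟨rfl, ?_⟩
      rintro rfl
      rw [h] at h'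
      exact (ty_eq h').2.1
    · intro n1 x1 y1 hp
      obtain ⟨x, L, h, -, -⟩ := key y1 _ hp
      rw [h] at hp
      obtain ⟨rfl, -, -⟩ := mem_ty.1 hp
      exact hn
    · intro n1 x1 s1 y1 hp
      obtain ⟨x, L, h, hL, -⟩ := key y1 _ hp
      rw [h] at hp ⊢
      obtain ⟨rfl, rfl, h0 | ⟨s, hs, h0⟩⟩ := mem_ty.1 hp
      · omega
      · obtain rfl : s1 = s := by omega
        exact ⟨mem_ty_zero, hL _ hs⟩
    · intro n1 x1 s1 s1' y1 hp hlt hT
      obtain ⟨x, L, h, -, hL⟩ := key y1 _ hp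
      rw [h] at hp ⊢
      obtain ⟨rfl, rfl, h0 | ⟨s, hs, h0⟩⟩ := mem_ty.1 hp
      · omega
      · obtain rfl : s1 = s := by omega
        exact mem_ty_succ.2 (hL _ hs _ hlt hT)
    · intro y y' hy hy' hne
      by_contra hcon
      push Not at hcon
      exact hne (h1 y hy y' hy' (Set.ext hcon))
    · intro n1 x0 y0 x s hp hT
      obtain ⟨x', L, h, -, -⟩ := key y0 _ hp
      rw [h] at hp
      obtain ⟨rfl, -, -⟩ := mem_ty.1 hp
      obtain ⟨y, hy, hty⟩ := h3 x s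
      refine ⟨y, by rw [hty]; exact mem_ty_zero, ?_, ?_⟩
      · intro s' hs' hT'
        rw [hty]
        exact mem_ty_succ.2 ⟨hT', hs'⟩
      · rw [hty, mem_ty_succ]
        rintro ⟨-, hlt⟩
        exact lt_irrefl _ hlt
    · intro n1 x0 y0 x q hp
      obtain ⟨x', L, h, -, -⟩ := key y0 _ hp
      rw [h] at hp
      obtain ⟨rfl, -, -⟩ := mem_ty.1 hp
      obtain ⟨y, hy, hty⟩ := h3 x q
      refine ⟨y, by rw [hty]; exact mem_ty_zero, ?_⟩
      intro s' hs' hT'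
      rw [hty]
      exact mem_ty_succ.2 ⟨hT', hs'⟩

/-! ### isomorphism -/

theorem Iso.typ_eq {A B : OStr ar1} (f : Iso A B) (y : A.univ) :
    typ A y = typ B (f.toEquiv y) := by
  ext p
  exact f.map_rel p (fun _ => y)

theorem isom_iff {A B : OStr ar1}
    (hA : ∀ y ∈ A.univ, ∀ y' ∈ A.univ, typ A y = typ A y' → y = y')
    (hB : ∀ y ∈ B.univ, ∀ y' ∈ B.univ, typ B y = typ B y' → y = y') :
    Isom A B ↔ (∀ y ∈ A.univ, ∃ y' ∈ B.univ, typ A y = typ B y') ∧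
      (∀ y' ∈ B.univ, ∃ y ∈ A.univ, typ A y = typ B y') := by
  constructor
  · rintro ⟨f⟩
    refine ⟨fun y hy => ⟨f.toEquiv ⟨y, hy⟩, (f.toEquiv ⟨y, hy⟩).2, f.typ_eq ⟨y, hy⟩⟩, ?_⟩
    intro y' hy'
    refine ⟨f.toEquiv.symm ⟨y', hy'⟩, (f.toEquiv.symm ⟨y', hy'⟩).2, ?_⟩
    have := f.typ_eq (f.toEquiv.symm ⟨y', hy'⟩)
    rw [Equiv.apply_symm_apply] at this
    exact this
  · rintro ⟨h1, h2⟩
    choose! f hf1 hf2 using h1
    choose! g hg1 hg2 using h2
    refine ⟨⟨⟨fun y => ⟨f y, hf1 y y.2⟩, fun y => ⟨g y, hg1 y y.2⟩, ?_, ?_⟩, ?_⟩⟩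
    · intro y
      apply Subtype.ext
      apply hA _ (hg1 _ (hf1 y y.2)) _ y.2
      rw [hg2 _ (hf1 y y.2), hf2 y y.2]
    · intro y
      apply Subtype.ext
      apply hB _ (hf1 _ (hg1 y y.2)) _ y.2
      rw [← hf2 _ (hg1 y y.2), hg2 y y.2]
    · intro i v
      have hv : (fun j => (v j : ℕ)) = fun _ : Fin (ar1 i) => (v ⟨0, by simp [ar1]⟩ : ℕ) := by
        funext j
        congr 2
        apply Fin.ext
        have := j.2
        simp only [ar1] at this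
        simp only
        omega
      have hv' : (fun j => f (v j)) = fun _ : Fin (ar1 i) => f (v ⟨0, by simp [ar1]⟩ : ℕ) := by
        funext j
        exact congrArg f (congrFun hv j)
      show A.rel i (fun j => (v j : ℕ)) ↔ B.rel i (fun j => f (v j))
      rw [hv, hv']
      have := hf2 (v ⟨0, by simp [ar1]⟩) (v ⟨0, by simp [ar1]⟩).2
      exact Set.ext_iff.1 this i

theorem isoClosed_K : IsoClosed ClassK := by
  rintro A B ⟨n, hn, h1, h2, h3⟩ ⟨f⟩
  refine ⟨n, hn, ?_, ?_, ?_⟩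
  · intro y hy y' hy' heq
    have e1 := f.typ_eq (f.toEquiv.symm ⟨y, hy⟩)
    have e2 := f.typ_eq (f.toEquiv.symm ⟨y', hy'⟩)
    rw [Equiv.apply_symm_apply] at e1 e2
    have := h1 _ (f.toEquiv.symm ⟨y, hy⟩).2 _ (f.toEquiv.symm ⟨y', hy'⟩).2
      (by rw [e1, e2]; exact heq)
    have h4 := f.toEquiv.symm.injective (Subtype.ext this)
    exact congrArg Subtype.val h4
  · intro y hy
    have e1 := f.typ_eq (f.toEquiv.symm ⟨y, hy⟩)
    rw [Equiv.apply_symm_apply] at e1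
    have := h2 _ (f.toEquiv.symm ⟨y, hy⟩).2
    rw [e1] at this
    exact this
  · intro x q
    obtain ⟨y, hy, hty⟩ := h3 x q
    refine ⟨f.toEquiv ⟨y, hy⟩, (f.toEquiv ⟨y, hy⟩).2, ?_⟩
    rw [← f.typ_eq ⟨y, hy⟩]
    exact hty

/-- the limit type of row `x` is realized -/
def Lim (n x : ℕ) (A : OStr ar1) : Prop :=
  ∃ y ∈ A.univ, typ A y = ty n x {s | T n.unpair.1 x s}

theorem lim_of_finite {n x : ℕ} {A : OStr ar1} (hA : InKn n A)
    (h : {s | T n.unpair.1 x s}.Finite) : Lim n x A := by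
  obtain ⟨b, hb⟩ := h.bddAbove
  obtain ⟨y, hy, hty⟩ := hA.2.2 x (b + 1)
  refine ⟨y, hy, ?_⟩
  rw [hty]
  congr 1
  ext s
  exact ⟨fun hs => hs.1, fun hs => ⟨hs, Nat.lt_succ_of_le (hb hs)⟩⟩

theorem isom_iff_lim {n : ℕ} {A B : OStr ar1} (hA : InKn n A) (hB : InKn n B) :
    Isom A B ↔ ∀ x, (Lim n x A ↔ Lim n x B) := by
  rw [isom_iff hA.1 hB.1]
  constructor
  · rintro ⟨h1, h2⟩ x
    constructor
    · rintro ⟨y, hy, hty⟩
      obtain ⟨y', hy', h⟩ := h1 y hy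
      exact ⟨y', hy', by rw [← h, hty]⟩
    · rintro ⟨y, hy, hty⟩
      obtain ⟨y', hy', h⟩ := h2 y hy
      exact ⟨y', hy', by rw [h, hty]⟩
  · intro h
    constructor
    · intro y hy
      obtain ⟨x, hx | ⟨q, hx⟩⟩ := hA.2.1 y hy
      · obtain ⟨y', hy', hty⟩ := (h x).1 ⟨y, hy, hx⟩
        exact ⟨y', hy', by rw [hx, hty]⟩
      · obtain ⟨y', hy', hty⟩ := hB.2.2 x q
        exact ⟨y', hy', by rw [hx, hty]⟩
    · intro y hy
      obtain ⟨x, hx | ⟨q, hx⟩⟩ := hB.2.1 y hy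
      · obtain ⟨y', hy', hty⟩ := (h x).2 ⟨y, hy, hx⟩
        exact ⟨y', hy', by rw [hx, hty]⟩
      · obtain ⟨y', hy', hty⟩ := hA.2.2 x q
        exact ⟨y', hy', by rw [hx, hty]⟩

theorem tag_eq {n : ℕ} {A : OStr ar1} (hA : InKn n A) {p y : ℕ} (h : p ∈ typ A y) :
    p.unpair.1 = n := by
  obtain ⟨n', x', s', rfl⟩ := exists_ix p
  obtain ⟨x, hx | ⟨q, hx⟩⟩ := hA.2.1 y (mem_univ_of_mem_typ h)
  · rw [hx] at h
    obtain ⟨rfl, -, -⟩ := mem_ty.1 h
    simp [ix]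
  · rw [hx] at h
    obtain ⟨rfl, -, -⟩ := mem_ty.1 h
    simp [ix]

theorem exists_tag {n : ℕ} {A : OStr ar1} (hA : InKn n A) : ∃ x y, ix n x 0 ∈ typ A y := by
  obtain ⟨y, hy, hty⟩ := hA.2.2 0 0
  exact ⟨0, y, by rw [hty]; exact mem_ty_zero⟩

theorem tag_unique {n m : ℕ} {A B : OStr ar1} (hA : InKn n A) (hB : InKn m B)
    (h : Isom A B) : n = m := by
  obtain ⟨f⟩ := h
  obtain ⟨x, y, hy⟩ := exists_tag hA
  have hy' := hy
  rw [f.typ_eq ⟨y, mem_univ_of_mem_typ hy⟩] at hy'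
  have := tag_eq hB hy'
  simpa [ix] using this

end Pool.Agent.MPbe00aa
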