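import Pool.Agent.MPbe00aa.Index

/-!
The index set of `ClassK` is `Π⁰₂` and its isomorphism problem is `Π⁰₃`.
-/

namespace Pool.Agent.MPbe00aa

open Nat.Partrec (Code)
open Nat.Partrec.Code Denumerable Encodable

attribute [local fun_prop] Computable
attribute [local fun_prop] Computable.id Computable.const Computable.comp Computable.fst
  Computable.snd Computable.pair comp_pair comp_unpair comp_succ comp_ix
  comp_double comp_cE comp_cP

/-- The conditions `Good`, expressed by means of an index. -/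
structure GoodIx (e : ℕ) : Prop where
  F : ∀ y, Fa e (cE y) ∨ ∃ w : ℕ × ℕ, Tr e (cP (ix w.1 w.2 0) y)
  G : ∀ y y' n x s n' x' s', Fa e (cP (ix n x s) y) ∨ Fa e (cP (ix n' x' s') y') ∨
    (n = n' ∧ (¬ y = y' ∨ x = x'))
  H : ∀ n x y, Fa e (cP (ix n x 0) y) ∨ C0 n
  I : ∀ n x s y, Fa e (cP (ix n x (s + 1)) y) ∨
    (Tr e (cP (ix n x 0) y) ∧ T n.unpair.1 x s)
  J : ∀ n x s s' y, Fa e (cP (ix n x (s + 1)) y) ∨ ¬ s' < s ∨ ¬ T n.unpair.1 x s' ∨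
    Tr e (cP (ix n x (s' + 1)) y)
  D : ∀ y y', Fa e (cE y) ∨ Fa e (cE y') ∨ y = y' ∨
    ∃ p, (Tr e (cP p y) ∧ Fa e (cP p y')) ∨ (Fa e (cP p y) ∧ Tr e (cP p y'))
  L : ∀ n x0 y0 x s, Fa e (cP (ix n x0 0) y0) ∨ ¬ T n.unpair.1 x s ∨
    ∃ y, Tr e (cP (ix n x 0) y) ∧
      (∀ s' < s, ¬ T n.unpair.1 x s' ∨ Tr e (cP (ix n x (s' + 1)) y)) ∧
      Fa e (cP (ix n x (s + 1)) y)
  M : ∀ n x0 y0 x q, Fa e (cP (ix n x0 0) y0) ∨
    ∃ y, Tr e (cP (ix n x 0) y) ∧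
      ∀ s < q, ¬ T n.unpair.1 x s ∨ Tr e (cP (ix n x (s + 1)) y)

theorem goodIx_iff {e : ℕ} {A : OStr ar1} (h : IsIndex e A) : GoodIx e ↔ Good A := by
  constructor
  · rintro ⟨hF, hG, hH, hI, hJ, hD, hL, hM⟩
    simp only [h.fa, h.tr, cP_mem_diagram, cE_mem_diagram] at hF hG hH hI hJ hD hL hM
    refine ⟨?_, ?_, ?_, ?_, ?_, ?_, ?_, ?_⟩
    · intro y hy
      obtain ⟨w, hw⟩ := (hF y).resolve_left (not_not.2 hy)
      exact ⟨w.1, w.2, hw⟩
    · intro y y' n x s n' x' s' h1 h2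
      obtain ⟨h3, h4⟩ := ((hG y y' n x s n' x' s').resolve_left (not_not.2 h1)).resolve_left
        (not_not.2 h2)
      exact ⟨h3, fun h5 => h4.resolve_left (not_not.2 h5)⟩
    · intro n x y h1
      exact (hH n x y).resolve_left (not_not.2 h1)
    · intro n x s y h1
      exact (hI n x s y).resolve_left (not_not.2 h1)
    · intro n x s s' y h1 h2 h3
      exact (((hJ n x s s' y).resolve_left (not_not.2 h1)).resolve_left
        (not_not.2 h2)).resolve_left (not_not.2 h3)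
    · intro y y' h1 h2 h3
      obtain ⟨p, hp⟩ := (((hD y y').resolve_left (not_not.2 h1)).resolve_left
        (not_not.2 h2)).resolve_left h3
      exact ⟨p, by tauto⟩
    · intro n x0 y0 x s h1 h2
      obtain ⟨y, h3, h4, h5⟩ := ((hL n x0 y0 x s).resolve_left (not_not.2 h1)).resolve_left
        (not_not.2 h2)
      exact ⟨y, h3, fun s' hs' hT => (h4 s' hs').resolve_left (not_not.2 hT), h5⟩
    · intro n x0 y0 x q h1
      obtain ⟨y, h3, h4⟩ := (hM n x0 y0 x q).resolve_left (not_not.2 h1)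
      exact ⟨y, h3, fun s' hs' hT => (h4 s' hs').resolve_left (not_not.2 hT)⟩
  · rintro ⟨hF, hG, hH, hI, hJ, hD, hL, hM⟩
    refine ⟨?_, ?_, ?_, ?_, ?_, ?_, ?_, ?_⟩ <;>
      simp only [h.fa, h.tr, cP_mem_diagram, cE_mem_diagram]
    · intro y
      by_cases hy : y ∈ A.univ
      · obtain ⟨n, x, hx⟩ := hF y hy
        exact Or.inr ⟨(n, x), hx⟩
      · exact Or.inl hy
    · intro y y' n x s n' x' s'
      by_cases h1 : ix n x s ∈ typ A y
      · by_cases h2 : ix n' x' s' ∈ typ A y'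
        · obtain ⟨h3, h4⟩ := hG y y' n x s n' x' s' h1 h2
          exact Or.inr (Or.inr ⟨h3, (em (y = y')).symm.imp id h4⟩)
        · exact Or.inr (Or.inl h2)
      · exact Or.inl h1
    · intro n x y
      by_cases h1 : ix n x 0 ∈ typ A y
      · exact Or.inr (hH n x y h1)
      · exact Or.inl h1
    · intro n x s y
      by_cases h1 : ix n x (s + 1) ∈ typ A y
      · exact Or.inr (hI n x s y h1)
      · exact Or.inl h1
    · intro n x s s' y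
      have := hJ n x s s' y
      tauto
    · intro y y'
      by_cases h1 : y ∈ A.univ
      · by_cases h2 : y' ∈ A.univ
        · by_cases h3 : y = y'
          · exact Or.inr (Or.inr (Or.inl h3))
          · obtain ⟨p, hp⟩ := hD y y' h1 h2 h3
            exact Or.inr (Or.inr (Or.inr ⟨p, by tauto⟩))
        · exact Or.inr (Or.inl h2)
      · exact Or.inl h1
    · intro n x0 y0 x s
      by_cases h1 : ix n x0 0 ∈ typ A y0
      · by_cases h2 : T n.unpair.1 x s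
        · obtain ⟨y, h3, h4, h5⟩ := hL n x0 y0 x s h1 h2
          refine Or.inr (Or.inr ⟨y, h3, fun s' hs' => ?_, h5⟩)
          by_cases hT : T n.unpair.1 x s'
          · exact Or.inr (h4 s' hs' hT)
          · exact Or.inl hT
        · exact Or.inr (Or.inl h2)
      · exact Or.inl h1
    · intro n x0 y0 x q
      by_cases h1 : ix n x0 0 ∈ typ A y0
      · obtain ⟨y, h3, h4⟩ := hM n x0 y0 x q h1
        refine Or.inr ⟨y, h3, fun s' hs' => ?_⟩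
        by_cases hT : T n.unpair.1 x s'
        · exact Or.inr (h4 s' hs' hT)
        · exact Or.inl hT
      · exact Or.inl h1

theorem goodIx_arith : Arith 2 false GoodIx := by
  have hF : Arith 2 false (fun e : ℕ => ∀ y, Fa e (cE y) ∨
      ∃ w : ℕ × ℕ, Tr e (cP (ix w.1 w.2 0) y)) :=
    Arith.all' (p := fun x : ℕ × ℕ => Fa x.1 (cE x.2) ∨
      ∃ w : ℕ × ℕ, Tr x.1 (cP (ix w.1 w.2 0) x.2))
      ((fa_arith (by fun_prop) (by fun_prop)).or
        (Arith.ex (p := fun x : (ℕ × ℕ) × (ℕ × ℕ) => Tr x.1.1 (cP (ix x.2.1 x.2.2 0) x.1.2))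
          (tr_arith (by fun_prop) (by fun_prop))))
  have hG : Arith 2 false (fun e : ℕ => ∀ y y' n x s n' x' s', Fa e (cP (ix n x s) y) ∨
      Fa e (cP (ix n' x' s') y') ∨ (n = n' ∧ (¬ y = y' ∨ x = x'))) := by
    have h := Arith.all' (k := 1) (δ := ((ℕ × ℕ) × (ℕ × ℕ)) × ((ℕ × ℕ) × (ℕ × ℕ)))
      (p := fun z : ℕ × (((ℕ × ℕ) × (ℕ × ℕ)) × ((ℕ × ℕ) × (ℕ × ℕ))) =>
        Fa z.1 (cP (ix z.2.1.2.1 z.2.1.2.2 z.2.2.1.1) z.2.1.1.1) ∨
        Fa z.1 (cP (ix z.2.2.1.2 z.2.2.2.1 z.2.2.2.2) z.2.1.1.2) ∨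
        (z.2.1.2.1 = z.2.2.1.2 ∧ (¬ z.2.1.1.1 = z.2.1.1.2 ∨ z.2.1.2.2 = z.2.2.2.1)))
      ((fa_arith (by fun_prop) (by fun_prop)).or
        ((fa_arith (by fun_prop) (by fun_prop)).or
          ((eq_arith (by fun_prop) (by fun_prop)).and
            ((eq_arith (s := false) (by fun_prop) (by fun_prop)).not.or
              (eq_arith (by fun_prop) (by fun_prop))))))
    exact h.congr fun e => ⟨fun h y y' n x s n' x' s' =>
      h (((y, y'), (n, x)), ((s, n'), (x', s'))), fun h w => h _ _ _ _ _ _ _ _⟩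
  have hH : Arith 2 false (fun e : ℕ => ∀ n x y, Fa e (cP (ix n x 0) y) ∨ C0 n) := by
    have h := Arith.all (k := 1) (δ := (ℕ × ℕ) × ℕ)
      (p := fun z : ℕ × ((ℕ × ℕ) × ℕ) => Fa z.1 (cP (ix z.2.1.1 z.2.1.2 0) z.2.2) ∨ C0 z.2.1.1)
      ((fa_arith (by fun_prop) (by fun_prop)).succ.or
        (C0_arith.comp (f := fun z : ℕ × ((ℕ × ℕ) × ℕ) => z.2.1.1) (by fun_prop)).succ)
    exact h.congr fun e => ⟨fun h n x y => h ((n, x), y), fun h w => h _ _ _⟩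
  have hI : Arith 2 false (fun e : ℕ => ∀ n x s y, Fa e (cP (ix n x (s + 1)) y) ∨
      (Tr e (cP (ix n x 0) y) ∧ T n.unpair.1 x s)) := by
    have h := Arith.all' (k := 1) (δ := (ℕ × ℕ) × (ℕ × ℕ))
      (p := fun z : ℕ × ((ℕ × ℕ) × (ℕ × ℕ)) =>
        Fa z.1 (cP (ix z.2.1.1 z.2.1.2 (z.2.2.1 + 1)) z.2.2.2) ∨
        (Tr z.1 (cP (ix z.2.1.1 z.2.1.2 0) z.2.2.2) ∧ T (Nat.unpair z.2.1.1).1 z.2.1.2 z.2.2.1))
      ((fa_arith (by fun_prop) (by fun_prop)).or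
        ((tr_arith (by fun_prop) (by fun_prop)).and
          (T_arith (by fun_prop) (by fun_prop) (by fun_prop))))
    exact h.congr fun e => ⟨fun h n x s y => h ((n, x), (s, y)), fun h w => h _ _ _ _⟩
  have hJ : Arith 2 false (fun e : ℕ => ∀ n x s s' y, Fa e (cP (ix n x (s + 1)) y) ∨
      ¬ s' < s ∨ ¬ T n.unpair.1 x s' ∨ Tr e (cP (ix n x (s' + 1)) y)) := by
    have h := Arith.all' (k := 1) (δ := ((ℕ × ℕ) × (ℕ × ℕ)) × ℕ)
      (p := fun z : ℕ × (((ℕ × ℕ) × (ℕ × ℕ)) × ℕ) =>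
        Fa z.1 (cP (ix z.2.1.1.1 z.2.1.1.2 (z.2.1.2.1 + 1)) z.2.2) ∨
        ¬ z.2.1.2.2 < z.2.1.2.1 ∨ ¬ T (Nat.unpair z.2.1.1.1).1 z.2.1.1.2 z.2.1.2.2 ∨
        Tr z.1 (cP (ix z.2.1.1.1 z.2.1.1.2 (z.2.1.2.2 + 1)) z.2.2))
      ((fa_arith (by fun_prop) (by fun_prop)).or
        ((lt_arith (s := false) (by fun_prop) (by fun_prop)).not.or
          ((T_arith (s := false) (by fun_prop) (by fun_prop) (by fun_prop)).not.or
            (tr_arith (by fun_prop) (by fun_prop)))))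
    exact h.congr fun e => ⟨fun h n x s s' y => h (((n, x), (s, s')), y), fun h w => h _ _ _ _ _⟩
  have hD : Arith 2 false (fun e : ℕ => ∀ y y', Fa e (cE y) ∨ Fa e (cE y') ∨ y = y' ∨
      ∃ p, (Tr e (cP p y) ∧ Fa e (cP p y')) ∨ (Fa e (cP p y) ∧ Tr e (cP p y'))) := by
    have h := Arith.all' (k := 1) (δ := ℕ × ℕ)
      (p := fun z : ℕ × (ℕ × ℕ) => Fa z.1 (cE z.2.1) ∨ Fa z.1 (cE z.2.2) ∨ z.2.1 = z.2.2 ∨
        ∃ p, (Tr z.1 (cP p z.2.1) ∧ Fa z.1 (cP p z.2.2)) ∨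
          (Fa z.1 (cP p z.2.1) ∧ Tr z.1 (cP p z.2.2)))
      ((fa_arith (by fun_prop) (by fun_prop)).or
        ((fa_arith (by fun_prop) (by fun_prop)).or
          ((eq_arith (by fun_prop) (by fun_prop)).or
            (Arith.ex (p := fun u : (ℕ × (ℕ × ℕ)) × ℕ =>
              (Tr u.1.1 (cP u.2 u.1.2.1) ∧ Fa u.1.1 (cP u.2 u.1.2.2)) ∨
              (Fa u.1.1 (cP u.2 u.1.2.1) ∧ Tr u.1.1 (cP u.2 u.1.2.2)))
              (((tr_arith (by fun_prop) (by fun_prop)).and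
                (fa_arith (by fun_prop) (by fun_prop))).or
              ((fa_arith (by fun_prop) (by fun_prop)).and
                (tr_arith (by fun_prop) (by fun_prop))))))))
    exact h.congr fun e => ⟨fun h y y' => h (y, y'), fun h w => h _ _⟩
  have hL : Arith 2 false (fun e : ℕ => ∀ n x0 y0 x s, Fa e (cP (ix n x0 0) y0) ∨
      ¬ T n.unpair.1 x s ∨ ∃ y, Tr e (cP (ix n x 0) y) ∧
      (∀ s' < s, ¬ T n.unpair.1 x s' ∨ Tr e (cP (ix n x (s' + 1)) y)) ∧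
      Fa e (cP (ix n x (s + 1)) y)) := by
    have h := Arith.all' (k := 1) (δ := ((ℕ × ℕ) × (ℕ × ℕ)) × ℕ)
      (p := fun z : ℕ × (((ℕ × ℕ) × (ℕ × ℕ)) × ℕ) =>
        Fa z.1 (cP (ix z.2.1.1.1 z.2.1.1.2 0) z.2.1.2.1) ∨
        ¬ T (Nat.unpair z.2.1.1.1).1 z.2.1.2.2 z.2.2 ∨
        ∃ y, Tr z.1 (cP (ix z.2.1.1.1 z.2.1.2.2 0) y) ∧
          (∀ s' < z.2.2, ¬ T (Nat.unpair z.2.1.1.1).1 z.2.1.2.2 s' ∨
            Tr z.1 (cP (ix z.2.1.1.1 z.2.1.2.2 (s' + 1)) y)) ∧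
          Fa z.1 (cP (ix z.2.1.1.1 z.2.1.2.2 (z.2.2 + 1)) y))
      ((fa_arith (by fun_prop) (by fun_prop)).or
        ((T_arith (s := false) (by fun_prop) (by fun_prop) (by fun_prop)).not.or
          (Arith.ex (p := fun u : (ℕ × (((ℕ × ℕ) × (ℕ × ℕ)) × ℕ)) × ℕ =>
            Tr u.1.1 (cP (ix u.1.2.1.1.1 u.1.2.1.2.2 0) u.2) ∧
            (∀ s' < u.1.2.2, ¬ T (Nat.unpair u.1.2.1.1.1).1 u.1.2.1.2.2 s' ∨
              Tr u.1.1 (cP (ix u.1.2.1.1.1 u.1.2.1.2.2 (s' + 1)) u.2)) ∧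
            Fa u.1.1 (cP (ix u.1.2.1.1.1 u.1.2.1.2.2 (u.1.2.2 + 1)) u.2))
            ((tr_arith (by fun_prop) (by fun_prop)).and
              ((arith_one_forall_lt (p := fun v : ((ℕ × (((ℕ × ℕ) × (ℕ × ℕ)) × ℕ)) × ℕ) × ℕ =>
                  ¬ T (Nat.unpair v.1.1.2.1.1.1).1 v.1.1.2.1.2.2 v.2 ∨
                  Tr v.1.1.1 (cP (ix v.1.1.2.1.1.1 v.1.1.2.1.2.2 (v.2 + 1)) v.1.2))
                ((T_arith (s := false) (by fun_prop) (by fun_prop) (by fun_prop)).not.or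
                  (tr_arith (by fun_prop) (by fun_prop)))
                (f := fun u : (ℕ × (((ℕ × ℕ) × (ℕ × ℕ)) × ℕ)) × ℕ => u.1.2.2)
                (by fun_prop)).and
              (fa_arith (by fun_prop) (by fun_prop)))))))
    exact h.congr fun e => ⟨fun h n x0 y0 x s => h (((n, x0), (y0, x)), s),
      fun h w => h _ _ _ _ _⟩
  have hM : Arith 2 false (fun e : ℕ => ∀ n x0 y0 x q, Fa e (cP (ix n x0 0) y0) ∨
      ∃ y, Tr e (cP (ix n x 0) y) ∧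
      ∀ s < q, ¬ T n.unpair.1 x s ∨ Tr e (cP (ix n x (s + 1)) y)) := by
    have h := Arith.all' (k := 1) (δ := ((ℕ × ℕ) × (ℕ × ℕ)) × ℕ)
      (p := fun z : ℕ × (((ℕ × ℕ) × (ℕ × ℕ)) × ℕ) =>
        Fa z.1 (cP (ix z.2.1.1.1 z.2.1.1.2 0) z.2.1.2.1) ∨
        ∃ y, Tr z.1 (cP (ix z.2.1.1.1 z.2.1.2.2 0) y) ∧
          ∀ s' < z.2.2, ¬ T (Nat.unpair z.2.1.1.1).1 z.2.1.2.2 s' ∨
            Tr z.1 (cP (ix z.2.1.1.1 z.2.1.2.2 (s' + 1)) y))
      ((fa_arith (by fun_prop) (by fun_prop)).or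
          (Arith.ex (p := fun u : (ℕ × (((ℕ × ℕ) × (ℕ × ℕ)) × ℕ)) × ℕ =>
            Tr u.1.1 (cP (ix u.1.2.1.1.1 u.1.2.1.2.2 0) u.2) ∧
            ∀ s' < u.1.2.2, ¬ T (Nat.unpair u.1.2.1.1.1).1 u.1.2.1.2.2 s' ∨
              Tr u.1.1 (cP (ix u.1.2.1.1.1 u.1.2.1.2.2 (s' + 1)) u.2))
            ((tr_arith (by fun_prop) (by fun_prop)).and
              (arith_one_forall_lt (p := fun v : ((ℕ × (((ℕ × ℕ) × (ℕ × ℕ)) × ℕ)) × ℕ) × ℕ =>
                  ¬ T (Nat.unpair v.1.1.2.1.1.1).1 v.1.1.2.1.2.2 v.2 ∨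
                  Tr v.1.1.1 (cP (ix v.1.1.2.1.1.1 v.1.1.2.1.2.2 (v.2 + 1)) v.1.2))
                ((T_arith (s := false) (by fun_prop) (by fun_prop) (by fun_prop)).not.or
                  (tr_arith (by fun_prop) (by fun_prop)))
                (f := fun u : (ℕ × (((ℕ × ℕ) × (ℕ × ℕ)) × ℕ)) × ℕ => u.1.2.2)
                (by fun_prop)))))
    exact h.congr fun e => ⟨fun h n x0 y0 x s => h (((n, x0), (y0, x)), s),
      fun h w => h _ _ _ _ _⟩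
  have hall := hF.and (hG.and (hH.and (hI.and (hJ.and (hD.and (hL.and hM))))))
  refine hall.congr fun e => ?_
  constructor
  · rintro ⟨h1, h2, h3, h4, h5, h6, h7, h8⟩
    exact ⟨h1, h2, h3, h4, h5, h6, h7, h8⟩
  · rintro ⟨h1, h2, h3, h4, h5, h6, h7, h8⟩
    exact ⟨h1, h2, h3, h4, h5, h6, h7, h8⟩

/-- membership in the index set of `ClassK`, via an index -/
def InI (e : ℕ) : Prop := StrCond e ∧ GoodIx e

theorem inI_iff (e : ℕ) : InI e ↔ indexSet ClassK e := by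
  constructor
  · rintro ⟨h1, h2⟩
    obtain ⟨A, hA⟩ := (strCond_iff e).1 h1
    exact ⟨A, (good_iff A).1 ((goodIx_iff hA).1 h2), hA⟩
  · rintro ⟨A, hK, hA⟩
    exact ⟨(strCond_iff e).2 ⟨A, hA⟩, (goodIx_iff hA).2 ((good_iff A).2 hK)⟩

theorem inI_arith : Arith 2 false InI := strCond_arith.and goodIx_arith

theorem indexSet_arith : Arith 2 false (indexSet ClassK) :=
  inI_arith.congr inI_iff

end Pool.Agent.MPbe00aa
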