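import Pool.Agent.MPbe00aa.Arith

/-!
A co-c.e. immune set `C0` meeting every column, and the escape lemma.
-/

namespace Pool.Agent.MPbe00aa

open Nat.Partrec (Code)
open Nat.Partrec.Code Denumerable Encodable

/-- The set of the numbers `⟨i, z⟩` with `z ≤ i + 1` and `φ_e(i) ≠ z` for all `e ≤ i`. -/
def C0 (n : ℕ) : Prop :=
  n.unpair.2 ≤ n.unpair.1 + 1 ∧
    ∀ e ≤ n.unpair.1, n.unpair.2 ∉ (ofNat Code e).eval n.unpair.1

theorem exists_C0 (i : ℕ) : ∃ z, C0 (Nat.pair i z) := by
  classical
  by_contra hcon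
  push Not at hcon
  have h1 : ∀ z ∈ Finset.range (i + 2), ∃ e ∈ Finset.range (i + 1),
      z ∈ (ofNat Code e).eval i := by
    intro z hz
    have h := hcon z
    simp only [C0, Nat.unpair_pair, not_and, not_forall, not_not] at h
    obtain ⟨e, he, hz'⟩ := h (by simp at hz; omega)
    exact ⟨e, by simp; omega, hz'⟩
  choose! g hg1 hg2 using h1
  have hcard : (Finset.range (i + 1)).card < (Finset.range (i + 2)).card := by simp
  obtain ⟨x, hx, y, hy, hxy, hgxy⟩ :=
    Finset.exists_ne_map_eq_of_card_lt_of_maps_to hcard (f := g) (fun z hz => hg1 z hz)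
  have h2 := hg2 x hx
  have h3 := hg2 y hy
  rw [hgxy] at h2
  exact hxy (Part.mem_unique h2 h3)

theorem C0_arith : Arith 1 false C0 := by
  have h1 : Arith 1 false (fun n : ℕ => n.unpair.2 ≤ n.unpair.1 + 1) := by
    refine Arith.of_computable (PrimrecPred.computablePred ?_)
    exact Primrec.nat_le.comp (Primrec.snd.comp Primrec.unpair)
      (Primrec.succ.comp (Primrec.fst.comp Primrec.unpair))
  have h2 : Arith 1 true (fun x : ℕ × ℕ => x.1.unpair.2 ∈ (ofNat Code x.2).eval x.1.unpair.1) := by
    refine ⟨fun x => evaln x.2 (ofNat Code x.1.2) x.1.1.unpair.1 = some x.1.1.unpair.2, ?_, ?_⟩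
    · refine PrimrecPred.computablePred ?_
      refine PrimrecRel.comp Primrec.eq ?_ ?_
      · exact primrec_evaln.comp ((Primrec.snd.pair
          ((Primrec.ofNat Code).comp (Primrec.snd.comp Primrec.fst))).pair
          (Primrec.fst.comp (Primrec.unpair.comp (Primrec.fst.comp Primrec.fst))))
      · exact Primrec.option_some.comp
          (Primrec.snd.comp (Primrec.unpair.comp (Primrec.fst.comp Primrec.fst)))
    · intro a
      exact evaln_complete
  have h3 : Arith 1 false (fun n : ℕ => ∀ e, e ≤ n.unpair.1 →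
      n.unpair.2 ∉ (ofNat Code e).eval n.unpair.1) := by
    refine Arith.all (δ := ℕ) (p := fun x : ℕ × ℕ => x.2 ≤ x.1.unpair.1 →
      x.1.unpair.2 ∉ (ofNat Code x.2).eval x.1.unpair.1) ?_
    refine Arith.imp ?_ h2.not
    refine Arith.of_computable (PrimrecPred.computablePred ?_)
    exact Primrec.nat_le.comp Primrec.snd (Primrec.fst.comp (Primrec.unpair.comp Primrec.fst))
  exact h1.and h3

/-- selection of a partial recursive function from a `Σ⁰₁` relation -/
theorem exists_selection {α : Type} [Primcodable α] {r : α × ℕ → Prop} (hr : Arith 1 true r) :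
    ∃ ψ : α →. ℕ, Partrec ψ ∧ (∀ a, ∀ z ∈ ψ a, r (a, z)) ∧ ∀ a, (∃ z, r (a, z)) → (ψ a).Dom := by
  obtain ⟨q, hq, h⟩ := hr
  obtain ⟨hd, hc⟩ := hq
  let φ : α →. ℕ := fun a : α =>
    Nat.rfind (fun n => (Part.some (decide (q ((a, n.unpair.1), n.unpair.2))) : Part Bool))
  have h1 : Partrec φ := by
    refine Partrec.rfind ?_
    refine (hc.comp (?_ : Computable fun x : α × ℕ => ((x.1, x.2.unpair.1), x.2.unpair.2))).partrec
    exact (Computable.fst.pair (Computable.fst.comp (Primrec.unpair.to_comp.comp Computable.snd))).pair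
          (Computable.snd.comp (Primrec.unpair.to_comp.comp Computable.snd))
  refine ⟨fun a => (φ a).map (fun n => n.unpair.1), ?_, ?_, ?_⟩
  · refine h1.map ?_
    exact (Computable.fst.comp (Primrec.unpair.to_comp.comp Computable.snd)).to₂
  · intro a z hz
    obtain ⟨n, hn, rfl⟩ := (Part.mem_map_iff _).1 hz
    have := Nat.rfind_spec hn
    rw [h]
    exact ⟨n.unpair.2, by simpa using this⟩
  · rintro a ⟨z, hz⟩
    obtain ⟨t, ht⟩ := (h _).1 hz
    have hdom : (φ a).Dom := by
      apply Nat.rfind_dom.2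
      exact ⟨Nat.pair z t, by simpa using ht, fun _ => trivial⟩
    exact hdom

/-- A `Σ⁰₁` relation inside `C0` only meets finitely many columns. -/
theorem C0_immune {r : ℕ × ℕ → Prop} (hr : Arith 1 true r)
    (h : ∀ i z, r (i, z) → C0 (Nat.pair i z)) : ∃ e, ∀ i z, r (i, z) → i < e := by
  obtain ⟨ψ, hψ, h1, h2⟩ := exists_selection hr
  obtain ⟨c, hc⟩ := Nat.Partrec.Code.exists_code.1 (Partrec.nat_iff.1 hψ)
  refine ⟨encode c, fun i z hz => ?_⟩
  by_contra hlt
  have hd := h2 i ⟨z, hz⟩
  have hmem : (ψ i).get hd ∈ ψ i := Part.get_mem hd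
  have h3 := h i _ (h1 i _ hmem)
  have h4 := h3.2 (encode c) (by simpa using (not_lt.1 hlt))
  simp only [Nat.unpair_pair, ofNat_encode, hc] at h4
  exact h4 hmem

/-- The escape lemma: there is no effective procedure which, given a finite subset of a subset
`S` of `C0`, finds a new element of `S`. -/
theorem no_escape {S : ℕ → Prop} (hS : ∀ n, S n → C0 n) {tag : ℕ × ℕ → Prop}
    (htag : Arith 1 true tag) {h : List ℕ → ℕ} (hh : Computable h)
    (hyp : ∀ F : List ℕ, (∀ n ∈ F, S n) →
      (∃ n, tag (h F, n)) ∧ ∀ n, tag (h F, n) → S n ∧ n ∉ F) : False := by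
  have hr : Arith 1 true (fun x : List ℕ × ℕ => tag (h x.1, x.2)) :=
    htag.comp (f := fun x : List ℕ × ℕ => (h x.1, x.2))
      ((hh.comp Computable.fst).pair Computable.snd)
  obtain ⟨ψ, hψ, h1, h2⟩ := exists_selection hr
  let g : ℕ →. List ℕ := fun k => Nat.rec (Part.some [])
    (fun _ (IH : Part (List ℕ)) => IH.bind fun F => (ψ F).map fun n => n :: F) k
  have hg : Partrec g := by
    refine Partrec.nat_rec (f := fun k : ℕ => k) (g := fun _ => Part.some [])
      (h := fun _ (p : ℕ × List ℕ) => (ψ p.2).map fun n => n :: p.2) Computable.id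
      (Computable.const []).partrec ?_
    refine Partrec.map (hψ.comp (Computable.snd.comp Computable.snd)) ?_
    exact Computable.list_cons.comp Computable.snd
      (Computable.snd.comp (Computable.snd.comp Computable.fst))
  have key : ∀ k, ∃ F, F ∈ g k ∧ (∀ n ∈ F, S n) ∧ F.Nodup ∧ F.length = k := by
    intro k
    induction k with
    | zero => exact ⟨[], by simp [g], by simp, by simp, by simp⟩
    | succ k ih =>
      obtain ⟨F, hF, hFS, hnd, hlen⟩ := ih
      obtain ⟨hex, hall⟩ := hyp F hFS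
      have hd : (ψ F).Dom := h2 F hex
      have hmem := Part.get_mem hd
      obtain ⟨hs, hn⟩ := hall _ (h1 F _ hmem)
      refine ⟨(ψ F).get hd :: F, ?_, ?_, ?_, ?_⟩
      · change _ ∈ (g k).bind _
        exact Part.mem_bind hF (Part.mem_map _ hmem)
      · intro n hn'
        rcases List.mem_cons.1 hn' with rfl | hn'
        · exact hs
        · exact hFS n hn'
      · exact List.nodup_cons.2 ⟨hn, hnd⟩
      · simp [hlen]
  choose G hG1 hG2 hG3 hG4 using key
  have hGc : Computable G := Partrec.of_eq_tot hg hG1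
  -- the relation of being listed
  have hrel : Arith 1 true (fun x : ℕ × ℕ => ∃ k, Nat.pair x.1 x.2 ∈ G k) := by
    refine ⟨fun y => Nat.pair y.1.1 y.1.2 ∈ G y.2, ?_, fun a => Iff.rfl⟩
    have hm : PrimrecPred (fun x : List ℕ × ℕ => x.2 ∈ x.1) := by
      have := (PrimrecRel.exists_mem_list (R := fun a b : ℕ => a = b) Primrec.eq)
      exact this.of_eq (fun L b => by simp)
    exact ComputablePred.comp' hm.computablePred
      (f := fun y : (ℕ × ℕ) × ℕ => (G y.2, Nat.pair y.1.1 y.1.2))
      ((hGc.comp Computable.snd).pair (Primrec₂.natPair.to_comp.comp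
        (Computable.fst.comp Computable.fst) (Computable.snd.comp Computable.fst)))
  obtain ⟨e, he⟩ := C0_immune hrel (by
    rintro i z ⟨k, hk⟩
    exact hS _ (hG2 k _ hk))
  -- all listed elements lie in a finite set
  let B : Finset ℕ := ((Finset.range e) ×ˢ (Finset.range (e + 1))).image
    (fun p => Nat.pair p.1 p.2)
  have hB : ∀ k, ∀ n ∈ G k, n ∈ B := by
    intro k n hn
    have hC := hS n (hG2 k n hn)
    have h5 : n.unpair.1 < e := he n.unpair.1 n.unpair.2 ⟨k, by simpa using hn⟩
    have h6 := hC.1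
    refine Finset.mem_image.2 ⟨n.unpair, ?_, by simp⟩
    simp only [Finset.mem_product, Finset.mem_range]
    omega
  have hfin := Finset.card_le_card (s := (G (B.card + 1)).toFinset) (t := B)
    (fun n hn => hB _ n (List.mem_toFinset.1 hn))
  rw [List.toFinset_card_of_nodup (hG3 _), hG4] at hfin
  omega

end Pool.Agent.MPbe00aa
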