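import Pool.Agent.MPbe00aa.ClassK

/-!
The complexity of the index set and of the isomorphism problem of `ClassK`.
-/

namespace Pool.Agent.MPbe00aa

open Nat.Partrec (Code)
open Nat.Partrec.Code Denumerable Encodable

section comp
variable {α : Type} [Primcodable α]

theorem comp_pair {f g : α → ℕ} (hf : Computable f) (hg : Computable g) :
    Computable (fun a => Nat.pair (f a) (g a)) := Primrec₂.natPair.to_comp.comp hf hg

theorem comp_unpair {f : α → ℕ} (hf : Computable f) :
    Computable (fun a => Nat.unpair (f a)) :=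
  Primrec.unpair.to_comp.comp hf

theorem comp_succ {f : α → ℕ} (hf : Computable f) : Computable (fun a => f a + 1) :=
  Computable.succ.comp hf

theorem comp_ix {f g h : α → ℕ} (hf : Computable f) (hg : Computable g) (hh : Computable h) :
    Computable (fun a => ix (f a) (g a) (h a)) :=
  comp_pair hf (comp_pair hg hh)

/-- code of the sentence `y = y` -/
def cE (y : ℕ) : ℕ := 2 * Nat.pair y y

/-- code of the sentence `R_p(y)` -/
def cP (p y : ℕ) : ℕ := 2 * Nat.pair p (encode [y]) + 1

theorem comp_double {f : α → ℕ} (hf : Computable f) : Computable (fun a => 2 * f a) :=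
  (Primrec.nat_mul.to_comp).comp (Computable.const 2) hf

theorem comp_cE {f : α → ℕ} (hf : Computable f) : Computable (fun a => cE (f a)) :=
  comp_double (comp_pair hf hf)

theorem comp_cP {f g : α → ℕ} (hf : Computable f) (hg : Computable g) :
    Computable (fun a => cP (f a) (g a)) := by
  refine comp_succ (comp_double (comp_pair hf ?_))
  refine Computable.encode.comp ?_
  exact Computable.list_cons.comp hg (Computable.const [])

end comp

attribute [local fun_prop] Computable
attribute [local fun_prop] Computable.id Computable.const Computable.comp Computable.fst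
  Computable.snd Computable.pair comp_pair comp_unpair comp_succ comp_ix
  comp_double comp_cE comp_cP

/-- `φ_e(m) = 1` -/
def Tr (e m : ℕ) : Prop := 1 ∈ (ofNat Code e).eval m

/-- `φ_e(m) = 0` -/
def Fa (e m : ℕ) : Prop := 0 ∈ (ofNat Code e).eval m

theorem mem_eval_arith (v : ℕ) :
    Arith 1 true (fun x : ℕ × ℕ => v ∈ (ofNat Code x.1).eval x.2) := by
  refine ⟨fun x => evaln x.2 (ofNat Code x.1.1) x.1.2 = some v, ?_, ?_⟩
  · refine PrimrecPred.computablePred ?_
    refine PrimrecRel.comp Primrec.eq ?_ (Primrec.const _)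
    exact primrec_evaln.comp ((Primrec.snd.pair
      ((Primrec.ofNat Code).comp (Primrec.fst.comp Primrec.fst))).pair
      (Primrec.snd.comp Primrec.fst))
  · intro a
    exact evaln_complete

section
variable {α : Type} [Primcodable α]

theorem tr_arith {f g : α → ℕ} (hf : Computable f) (hg : Computable g) :
    Arith 1 true (fun a => Tr (f a) (g a)) :=
  (mem_eval_arith 1).comp (f := fun a => (f a, g a)) (hf.pair hg)

theorem fa_arith {f g : α → ℕ} (hf : Computable f) (hg : Computable g) :
    Arith 1 true (fun a => Fa (f a) (g a)) :=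
  (mem_eval_arith 0).comp (f := fun a => (f a, g a)) (hf.pair hg)

theorem eq_arith {k : ℕ} {s : Bool} {f g : α → ℕ} (hf : Computable f) (hg : Computable g) :
    Arith k s (fun a => f a = g a) := by
  refine Arith.of_computable ?_
  have h : PrimrecPred (fun x : ℕ × ℕ => x.1 = x.2) :=
    PrimrecRel.comp Primrec.eq Primrec.fst Primrec.snd
  exact ComputablePred.comp' h.computablePred (f := fun a => (f a, g a)) (hf.pair hg)

theorem lt_arith {k : ℕ} {s : Bool} {f g : α → ℕ} (hf : Computable f) (hg : Computable g) :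
    Arith k s (fun a => f a < g a) := by
  refine Arith.of_computable ?_
  have h : PrimrecPred (fun x : ℕ × ℕ => x.1 < x.2) :=
    Primrec.nat_lt.comp Primrec.fst Primrec.snd
  exact ComputablePred.comp' h.computablePred (f := fun a => (f a, g a)) (hf.pair hg)

theorem T_arith {k : ℕ} {s : Bool} {f g h : α → ℕ} (hf : Computable f) (hg : Computable g)
    (hh : Computable h) : Arith k s (fun a => T (f a) (g a) (h a)) :=
  Arith.of_computable (ComputablePred.comp' T_primrec.computablePred
    (f := fun a => ((f a, g a), h a)) ((hf.pair hg).pair hh))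

/-- bounded universal quantification of a `Σ⁰₁` predicate -/
theorem arith_one_forall_lt {p : α × ℕ → Prop} (hp : Arith 1 true p) {f : α → ℕ}
    (hf : Computable f) : Arith 1 true (fun a => ∀ x < f a, p (a, x)) := by
  have hre : Partrec (fun a : α × ℕ => Part.assert (p a) fun _ => Part.some ()) :=
    re_of_arith_one hp
  let g : α →. Unit := fun a => Nat.rec (Part.some ())
    (fun y (IH : Part Unit) => IH.bind fun _ => Part.assert (p (a, y)) fun _ => Part.some ()) (f a)
  have hg : Partrec g := by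
    refine Partrec.nat_rec (f := f) (g := fun _ => Part.some ())
      (h := fun a (q : ℕ × Unit) => Part.assert (p (a, q.1)) fun _ => Part.some ()) hf
      (Computable.const ()).partrec ?_
    exact hre.comp (Computable.fst.pair (Computable.fst.comp Computable.snd))
  refine arith_one_of_re ((Partrec.dom_re hg).of_eq fun a => ?_)
  show (Part.Dom (Nat.rec (Part.some ())
    (fun y (IH : Part Unit) => IH.bind fun _ => Part.assert (p (a, y)) fun _ => Part.some ())
      (f a) : Part Unit)) ↔ _
  generalize f a = n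
  induction n with
  | zero => simp
  | succ n ih =>
    constructor
    · intro hd
      obtain ⟨hd1, hd2⟩ := hd
      have hd1' := ih.1 hd1
      have hd2' : p (a, n) := by
        simp only [Part.assert] at hd2
        exact hd2.1
      intro x hx
      rcases Nat.lt_succ_iff_lt_or_eq.1 hx with hx | rfl
      · exact hd1' x hx
      · exact hd2'
    · intro h
      have hd1 := ih.2 (fun x hx => h x (Nat.lt_succ_of_lt hx))
      exact ⟨hd1, h n (Nat.lt_succ_self n), trivial⟩

end

theorem Atom.code_injective {ar : ℕ → ℕ} : Function.Injective (Atom.code (ar := ar)) := by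
  intro φ ψ h
  cases φ with
  | eq m n =>
    cases ψ with
    | eq m' n' =>
      simp only [Atom.code] at h
      have h' : Nat.pair m n = Nat.pair m' n' := by omega
      obtain ⟨rfl, rfl⟩ := Nat.pair_eq_pair.1 h'
      rfl
    | rel i v =>
      simp only [Atom.code] at h
      omega
  | rel i v =>
    cases ψ with
    | eq m' n' =>
      simp only [Atom.code] at h
      omega
    | rel i' v' =>
      simp only [Atom.code] at h
      have h' : Nat.pair i (encode (List.ofFn v)) = Nat.pair i' (encode (List.ofFn v')) := by omega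
      obtain ⟨rfl, h2⟩ := Nat.pair_eq_pair.1 h'
      have h3 : v = v' := List.ofFn_injective (Encodable.encode_injective h2)
      rw [h3]

theorem code_mem_diagram {ar : ℕ → ℕ} {A : OStr ar} {φ : Atom ar} :
    φ.code ∈ A.diagram ↔ A.Holds φ := by
  constructor
  · rintro ⟨ψ, h, hψ⟩
    rwa [Atom.code_injective h] at hψ
  · intro h
    exact ⟨φ, rfl, h⟩

theorem eq_mem_diagram {ar : ℕ → ℕ} {A : OStr ar} {i j : ℕ} :
    2 * Nat.pair i j ∈ A.diagram ↔ i = j ∧ i ∈ A.univ :=
  code_mem_diagram (φ := Atom.eq i j)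

theorem cE_mem_diagram {ar : ℕ → ℕ} {A : OStr ar} {y : ℕ} : cE y ∈ A.diagram ↔ y ∈ A.univ := by
  rw [cE, eq_mem_diagram]
  simp

theorem cP_eq (p y : ℕ) : (Atom.rel (ar := ar1) p (fun _ => y)).code = cP p y := rfl

theorem cP_mem_diagram {A : OStr ar1} {p y : ℕ} : cP p y ∈ A.diagram ↔ p ∈ typ A y := by
  rw [← cP_eq, code_mem_diagram]
  rfl

theorem cE_eq (y : ℕ) : 2 * Nat.pair y y = cE y := rfl

attribute [irreducible] cE cP

theorem eq_const (p : ℕ) (v : Fin (ar1 p) → ℕ) : v = fun _ => v ⟨0, by simp [ar1]⟩ := by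
  funext j
  congr 1
  apply Fin.ext
  have := j.2
  simp only [ar1] at this
  simp only
  omega

section
variable {ar : ℕ → ℕ} {e : ℕ} {A : OStr ar}

theorem IsIndex.tr (h : IsIndex e A) {m : ℕ} : Tr e m ↔ m ∈ A.diagram := by
  unfold Tr
  rw [h m]
  by_cases hm : m ∈ A.diagram <;> simp [hm]

theorem IsIndex.fa (h : IsIndex e A) {m : ℕ} : Fa e m ↔ m ∉ A.diagram := by
  unfold Fa
  rw [h m]
  by_cases hm : m ∈ A.diagram <;> simp [hm]

theorem isIndex_of (h1 : ∀ m, m ∈ A.diagram → Tr e m) (h2 : ∀ m, m ∉ A.diagram → Fa e m) :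
    IsIndex e A := by
  intro m
  by_cases hm : m ∈ A.diagram
  · simp only [hm, if_true]
    exact Part.eq_some_iff.2 (h1 m hm)
  · simp only [hm, if_false]
    exact Part.eq_some_iff.2 (h2 m hm)

theorem IsIndex.unique {B : OStr ar} (hA : IsIndex e A) (hB : IsIndex e B) : A = B := by
  have hd : ∀ m, m ∈ A.diagram ↔ m ∈ B.diagram := fun m => hA.tr.symm.trans hB.tr
  have hu : A.univ = B.univ := by
    ext y
    rw [← cE_mem_diagram (A := A), hd, cE_mem_diagram]
  have hr : A.rel = B.rel := by
    funext i v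
    apply propext
    have h1 := code_mem_diagram (A := A) (φ := Atom.rel i v)
    have h2 := code_mem_diagram (A := B) (φ := Atom.rel i v)
    exact h1.symm.trans ((hd _).trans h2)
  cases A
  cases B
  simp only at hu hr
  subst hu hr
  rfl

end

theorem tr_fa_excl {e m : ℕ} (h1 : Tr e m) (h2 : Fa e m) : False := by
  have := Part.mem_unique h1 h2
  omega

/-- `A_e` exists (for the language with unary relation symbols). -/
def StrCond (e : ℕ) : Prop :=
  (∀ m, Tr e m ∨ Fa e m) ∧
  (∀ m, Fa e m ∨ ∃ ij : ℕ × ℕ, m = 2 * Nat.pair ij.1 ij.2 ∨ m = cP ij.1 ij.2) ∧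
  (∀ ij : ℕ × ℕ, ij.1 = ij.2 ∨ Fa e (2 * Nat.pair ij.1 ij.2)) ∧
  (∀ ij : ℕ × ℕ, Fa e (cP ij.1 ij.2) ∨ Tr e (cE ij.2)) ∧
  ∃ y, Tr e (cE y)

theorem strCond_iff (e : ℕ) : StrCond e ↔ ∃ A : OStr ar1, IsIndex e A := by
  constructor
  · rintro ⟨hA, hB, hC, hD, hN⟩
    have htr : ∀ m, ¬ Fa e m → Tr e m := fun m h => (hA m).resolve_right h
    have hfa : ∀ m, ¬ Tr e m → Fa e m := fun m h => (hA m).resolve_left h
    let A : OStr ar1 :=
      { univ := {y | Tr e (cE y)}
        nonempty := hN
        rel := fun p v => Tr e (cP p (v ⟨0, by simp [ar1]⟩))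
        rel_mem := by
          intro p v h j
          have h1 := (hD (p, v ⟨0, by simp [ar1]⟩)).resolve_left (fun h' => tr_fa_excl h h')
          rw [eq_const p v]
          exact h1 }
    have key : ∀ m, m ∈ A.diagram ↔ Tr e m := by
      intro m
      constructor
      · rintro ⟨φ, rfl, hφ⟩
        cases φ with
        | eq i j =>
          obtain ⟨rfl, h⟩ := hφ
          show Tr e (2 * Nat.pair i i)
          rw [cE_eq]
          exact h
        | rel p v =>
          have hφ' : Tr e (cP p (v ⟨0, by simp [ar1]⟩)) := hφ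
          have hcode : (Atom.rel (ar := ar1) p v).code = cP p (v ⟨0, by simp [ar1]⟩) := by
            rw [eq_const p v]; exact cP_eq _ _
          rw [hcode]
          exact hφ'
      · intro hm
        obtain ⟨ij, h | h⟩ := (hB m).resolve_left (fun h' => tr_fa_excl hm h')
        · subst h
          have h2 := (hC ij).resolve_right (fun h' => tr_fa_excl hm h')
          rw [eq_mem_diagram]
          refine ⟨h2, ?_⟩
          rw [← h2, cE_eq] at hm
          exact hm
        · subst h
          rw [cP_mem_diagram]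
          exact hm
    exact ⟨A, isIndex_of (fun m hm => (key m).1 hm)
      (fun m hm => hfa m (fun h => hm ((key m).2 h)))⟩
  · rintro ⟨A, hA⟩
    refine ⟨?_, ?_, ?_, ?_, ?_⟩
    · intro m
      rw [hA.tr, hA.fa]
      exact em _
    · intro m
      rw [hA.fa]
      by_cases hm : m ∈ A.diagram
      · right
        obtain ⟨φ, rfl, -⟩ := hm
        cases φ with
        | eq i j => exact ⟨(i, j), Or.inl rfl⟩
        | rel p v =>
          refine ⟨(p, v ⟨0, by simp [ar1]⟩), Or.inr ?_⟩
          rw [eq_const p v]; exact cP_eq _ _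
      · exact Or.inl hm
    · rintro ⟨i, j⟩
      rw [hA.fa, eq_mem_diagram]
      by_cases h : i = j
      · exact Or.inl h
      · exact Or.inr (fun h' => h h'.1)
    · rintro ⟨p, y⟩
      rw [hA.fa, hA.tr, cP_mem_diagram, cE_mem_diagram]
      by_cases h : p ∈ typ A y
      · exact Or.inr (mem_univ_of_mem_typ h)
      · exact Or.inl h
    · obtain ⟨y, hy⟩ := A.nonempty
      exact ⟨y, hA.tr.2 (cE_mem_diagram.2 hy)⟩

theorem strCond_arith : Arith 2 false StrCond := by
  have h1 : Arith 2 false (fun e : ℕ => ∀ m, Tr e m ∨ Fa e m) :=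
    Arith.all' (p := fun x : ℕ × ℕ => Tr x.1 x.2 ∨ Fa x.1 x.2)
      ((tr_arith (by fun_prop) (by fun_prop)).or (fa_arith (by fun_prop) (by fun_prop)))
  have h2 : Arith 2 false (fun e : ℕ => ∀ m, Fa e m ∨
      ∃ ij : ℕ × ℕ, m = 2 * Nat.pair ij.1 ij.2 ∨ m = cP ij.1 ij.2) :=
    Arith.all' (p := fun x : ℕ × ℕ => Fa x.1 x.2 ∨
      ∃ ij : ℕ × ℕ, x.2 = 2 * Nat.pair ij.1 ij.2 ∨ x.2 = cP ij.1 ij.2)
      ((fa_arith (by fun_prop) (by fun_prop)).or
        (Arith.ex (p := fun x : (ℕ × ℕ) × (ℕ × ℕ) =>
          x.1.2 = 2 * Nat.pair x.2.1 x.2.2 ∨ x.1.2 = cP x.2.1 x.2.2)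
          ((eq_arith (by fun_prop) (by fun_prop)).or (eq_arith (by fun_prop) (by fun_prop)))))
  have h3 : Arith 2 false (fun e : ℕ => ∀ ij : ℕ × ℕ, ij.1 = ij.2 ∨
      Fa e (2 * Nat.pair ij.1 ij.2)) :=
    Arith.all' (p := fun x : ℕ × (ℕ × ℕ) => x.2.1 = x.2.2 ∨
      Fa x.1 (2 * Nat.pair x.2.1 x.2.2))
      ((eq_arith (by fun_prop) (by fun_prop)).or (fa_arith (by fun_prop) (by fun_prop)))
  have h4 : Arith 2 false (fun e : ℕ => ∀ ij : ℕ × ℕ, Fa e (cP ij.1 ij.2) ∨ Tr e (cE ij.2)) :=
    Arith.all' (p := fun x : ℕ × (ℕ × ℕ) => Fa x.1 (cP x.2.1 x.2.2) ∨ Tr x.1 (cE x.2.2))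
      ((fa_arith (by fun_prop) (by fun_prop)).or (tr_arith (by fun_prop) (by fun_prop)))
  have h5 : Arith 1 true (fun e : ℕ => ∃ y, Tr e (cE y)) :=
    Arith.ex (p := fun x : ℕ × ℕ => Tr x.1 (cE x.2))
      (tr_arith (f := fun x : ℕ × ℕ => x.1) (g := fun x : ℕ × ℕ => cE x.2)
        (by fun_prop) (by fun_prop))
  have h6 : Arith 2 false (fun e : ℕ => ∃ y, Tr e (cE y)) := Arith.succ h5
  exact h1.and (h2.and (h3.and (h4.and h6)))

end Pool.Agent.MPbe00aa
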