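import Pool.Agent.MPbe00aa.Complexity

/-!
The isomorphism problem of `ClassK` is properly `Π⁰₃` and not complete.
-/

namespace Pool.Agent.MPbe00aa

open Nat.Partrec (Code)
open Nat.Partrec.Code Denumerable Encodable

attribute [local fun_prop] Computable
attribute [local fun_prop] Computable.id Computable.const Computable.comp Computable.fst
  Computable.snd Computable.pair comp_pair comp_unpair comp_succ comp_ix
  comp_double comp_cE comp_cP

/-- `n` is the tag of `A_e` -/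
def TagIx (e n : ℕ) : Prop := ∃ w : ℕ × ℕ, Tr e (cP (ix n w.1 0) w.2)

theorem tagIx_arith : Arith 1 true (fun x : ℕ × ℕ => TagIx x.1 x.2) :=
  Arith.ex (k := 0) (p := fun u : (ℕ × ℕ) × (ℕ × ℕ) => Tr u.1.1 (cP (ix u.1.2 u.2.1 0) u.2.2))
    (tr_arith (by fun_prop) (by fun_prop))

theorem tagIx_iff {e n m : ℕ} {A : OStr ar1} (h : IsIndex e A) (hA : InKn n A) :
    TagIx e m ↔ m = n := by
  constructor
  · rintro ⟨w, hw⟩
    rw [h.tr, cP_mem_diagram] at hw
    have := tag_eq hA hw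
    simpa [ix] using this
  · rintro rfl
    obtain ⟨x, y, hy⟩ := exists_tag hA
    exact ⟨(x, y), by rw [h.tr, cP_mem_diagram]; exact hy⟩

/-- the limit type of row `x` is realized in `A_e` -/
def LimIx (e n x : ℕ) : Prop :=
  ∃ y, ¬ Fa e (cP (ix n x 0) y) ∧ ∀ s, ¬ T n.unpair.1 x s ∨ ¬ Fa e (cP (ix n x (s + 1)) y)

theorem limIx_arith : Arith 2 true (fun u : (ℕ × ℕ) × ℕ => LimIx u.1.1 u.1.2 u.2) := by
  refine Arith.ex' (p := fun v : ((ℕ × ℕ) × ℕ) × ℕ => ¬ Fa v.1.1.1 (cP (ix v.1.1.2 v.1.2 0) v.2) ∧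
    ∀ s, ¬ T (Nat.unpair v.1.1.2).1 v.1.2 s ∨ ¬ Fa v.1.1.1 (cP (ix v.1.1.2 v.1.2 (s + 1)) v.2)) ?_
  refine ((fa_arith (by fun_prop) (by fun_prop)).not).and ?_
  refine Arith.all (k := 0) (p := fun t : (((ℕ × ℕ) × ℕ) × ℕ) × ℕ =>
    ¬ T (Nat.unpair t.1.1.1.2).1 t.1.1.2 t.2 ∨
      ¬ Fa t.1.1.1.1 (cP (ix t.1.1.1.2 t.1.1.2 (t.2 + 1)) t.1.2)) ?_
  exact (T_arith (s := true) (by fun_prop) (by fun_prop) (by fun_prop)).not.or
    (fa_arith (by fun_prop) (by fun_prop)).not

theorem limIx_iff {e n x : ℕ} {A : OStr ar1} (h : IsIndex e A) (hA : InKn n A) :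
    LimIx e n x ↔ Lim n x A := by
  simp only [LimIx, h.fa, cP_mem_diagram, not_not]
  constructor
  · rintro ⟨y, hy, hT⟩
    have hU := mem_univ_of_mem_typ hy
    refine ⟨y, hU, ?_⟩
    obtain ⟨x', hx | ⟨q, hx⟩⟩ := hA.2.1 y hU
    · rw [hx] at hy
      obtain ⟨-, rfl, -⟩ := mem_ty.1 hy
      exact hx
    · rw [hx] at hy
      obtain ⟨-, rfl, -⟩ := mem_ty.1 hy
      rw [hx]
      congr 1
      ext s
      constructor
      · exact fun hs => hs.1
      · intro hs
        have := (hT s).resolve_left (not_not.2 hs)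
        rw [hx, mem_ty_succ] at this
        exact this
  · rintro ⟨y, hU, hy⟩
    refine ⟨y, by rw [hy]; exact mem_ty_zero, fun s => ?_⟩
    by_cases hs : T n.unpair.1 x s
    · right
      rw [hy, mem_ty_succ]
      exact hs
    · exact Or.inl hs

/-- the isomorphism problem via indices -/
def EIx (z : ℕ × ℕ) : Prop :=
  InI z.1 ∧ InI z.2 ∧ (∀ n, ¬ TagIx z.1 n ∨ TagIx z.2 n) ∧
    ∀ w : ℕ × ℕ, ¬ TagIx z.1 w.1 ∨ ((¬ LimIx z.1 w.1 w.2 ∨ LimIx z.2 w.1 w.2) ∧
      (¬ LimIx z.2 w.1 w.2 ∨ LimIx z.1 w.1 w.2))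

theorem eIx_arith : Arith 3 false EIx := by
  have h1 : Arith 3 false (fun z : ℕ × ℕ => InI z.1) := (inI_arith.comp Computable.fst).succ
  have h2 : Arith 3 false (fun z : ℕ × ℕ => InI z.2) := (inI_arith.comp Computable.snd).succ
  have h3 : Arith 3 false (fun z : ℕ × ℕ => ∀ n, ¬ TagIx z.1 n ∨ TagIx z.2 n) := by
    refine Arith.all' (k := 2) (p := fun u : (ℕ × ℕ) × ℕ => ¬ TagIx u.1.1 u.2 ∨ TagIx u.1.2 u.2) ?_
    refine Arith.or ?_ ?_
    · exact (tagIx_arith.comp (f := fun u : (ℕ × ℕ) × ℕ => (u.1.1, u.2)) (by fun_prop)).not.succ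
    · exact (tagIx_arith.comp (f := fun u : (ℕ × ℕ) × ℕ => (u.1.2, u.2)) (by fun_prop)).succ
  have hl1 : Arith 2 true (fun u : (ℕ × ℕ) × (ℕ × ℕ) => LimIx u.1.1 u.2.1 u.2.2) :=
    limIx_arith.comp (f := fun u : (ℕ × ℕ) × (ℕ × ℕ) => ((u.1.1, u.2.1), u.2.2)) (by fun_prop)
  have hl2 : Arith 2 true (fun u : (ℕ × ℕ) × (ℕ × ℕ) => LimIx u.1.2 u.2.1 u.2.2) :=
    limIx_arith.comp (f := fun u : (ℕ × ℕ) × (ℕ × ℕ) => ((u.1.2, u.2.1), u.2.2)) (by fun_prop)
  have h4 : Arith 3 false (fun z : ℕ × ℕ => ∀ w : ℕ × ℕ, ¬ TagIx z.1 w.1 ∨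
      ((¬ LimIx z.1 w.1 w.2 ∨ LimIx z.2 w.1 w.2) ∧
      (¬ LimIx z.2 w.1 w.2 ∨ LimIx z.1 w.1 w.2))) := by
    refine Arith.all (k := 2) (p := fun u : (ℕ × ℕ) × (ℕ × ℕ) => ¬ TagIx u.1.1 u.2.1 ∨
      ((¬ LimIx u.1.1 u.2.1 u.2.2 ∨ LimIx u.1.2 u.2.1 u.2.2) ∧
      (¬ LimIx u.1.2 u.2.1 u.2.2 ∨ LimIx u.1.1 u.2.1 u.2.2))) ?_
    refine Arith.or ?_ (Arith.and (Arith.or ?_ ?_) (Arith.or ?_ ?_))
    · exact Arith.mono_lt (by norm_num) (tagIx_arith.comp
        (f := fun u : (ℕ × ℕ) × (ℕ × ℕ) => (u.1.1, u.2.1)) (by fun_prop)).not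
    · exact hl1.not.succ
    · exact hl2.succ
    · exact hl2.not.succ
    · exact hl1.succ
  exact h1.and (h2.and (h3.and h4))

theorem eIx_iff (z : ℕ × ℕ) : EIx z ↔ isoProblem ClassK z := by
  obtain ⟨a, b⟩ := z
  simp only [EIx, isoProblem]
  constructor
  · rintro ⟨h1, h2, h3, h4⟩
    obtain ⟨A, ⟨n, hn, hA⟩, ha⟩ := (inI_iff a).1 h1
    obtain ⟨B, ⟨m, hm, hB⟩, hb⟩ := (inI_iff b).1 h2
    have htag := (h3 n).resolve_left (not_not.2 ((tagIx_iff ha hA).2 rfl))
    rw [tagIx_iff hb hB] at htag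
    subst htag
    refine ⟨A, ⟨n, hn, hA⟩, B, ⟨n, hn, hB⟩, ha, hb, ?_⟩
    rw [isom_iff_lim hA hB]
    intro x
    have h5 := (h4 (n, x)).resolve_left (not_not.2 ((tagIx_iff ha hA).2 rfl))
    simp only [limIx_iff ha hA, limIx_iff hb hB] at h5
    tauto
  · rintro ⟨A, ⟨n, hn, hA⟩, B, ⟨m, hm, hB⟩, ha, hb, hiso⟩
    have := tag_unique hA hB hiso
    subst this
    refine ⟨(inI_iff a).2 ⟨A, ⟨n, hn, hA⟩, ha⟩, (inI_iff b).2 ⟨B, ⟨n, hn, hB⟩, hb⟩, ?_, ?_⟩
    · intro k
      rw [tagIx_iff ha hA, tagIx_iff hb hB]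
      exact (em (k = n)).symm
    · rintro ⟨k, x⟩
      simp only
      by_cases hk : k = n
      · subst hk
        rw [limIx_iff ha hA, limIx_iff hb hB]
        have := (isom_iff_lim hA hB).1 hiso x
        tauto
      · left
        rw [tagIx_iff ha hA]
        exact hk

theorem isoProblem_arith : Arith 3 false (isoProblem ClassK) := eIx_arith.congr eIx_iff

/-! ### the two models -/

/-- the universe of the models with tag `n` -/
def MU (n y : ℕ) : Prop := y.unpair.2 = 0 ∨ (0 < y.unpair.2 ∧ T n.unpair.1 y.unpair.1 (y.unpair.2 - 1))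

/-- the labels: `false` for the model without, `true` for the model with limit types -/
def ML (j : Bool) (n y s : ℕ) : Prop :=
  T n.unpair.1 y.unpair.1 s ∧
    ((j = false ∧ s < y.unpair.2) ∨ (j = true ∧ (y.unpair.2 = 0 ∨ s + 1 < y.unpair.2)))

/-- the relations -/
def MR (j : Bool) (n p y : ℕ) : Prop :=
  MU n y ∧ p.unpair.1 = n ∧ p.unpair.2.unpair.1 = y.unpair.1 ∧
    (p.unpair.2.unpair.2 = 0 ∨ (0 < p.unpair.2.unpair.2 ∧ ML j n y (p.unpair.2.unpair.2 - 1)))

/-- the models -/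
def mod (j : Bool) (n : ℕ) : OStr ar1 where
  univ := {y | MU n y}
  nonempty := ⟨Nat.pair 0 0, Or.inl (by simp)⟩
  rel := fun p v => MR j n p (v ⟨0, by simp [ar1]⟩)
  rel_mem := by
    intro p v h i
    rw [eq_const p v]
    exact h.1

theorem mod_typ {j : Bool} {n y : ℕ} (hy : MU n y) :
    typ (mod j n) y = ty n y.unpair.1 {s | ML j n y s} := by
  ext p
  obtain ⟨n', x', s', rfl⟩ := exists_ix p
  rw [mem_ty]
  show MR j n (ix n' x' s') y ↔ _
  simp only [MR, ix, Nat.unpair_pair]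
  constructor
  · rintro ⟨-, h1, h2, h3 | ⟨h3, h4⟩⟩
    · exact ⟨h1, h2, Or.inl h3⟩
    · exact ⟨h1, h2, Or.inr ⟨s' - 1, h4, by omega⟩⟩
  · rintro ⟨h1, h2, h3 | ⟨s, h4, rfl⟩⟩
    · exact ⟨hy, h1, h2, Or.inl h3⟩
    · exact ⟨hy, h1, h2, Or.inr ⟨by omega, h4⟩⟩

theorem mod_inj {j : Bool} {n y y' : ℕ} (hy : MU n y) (hy' : MU n y')
    (h : typ (mod j n) y = typ (mod j n) y') : y = y' := by
  rw [mod_typ hy, mod_typ hy'] at h
  obtain ⟨-, h1, h2⟩ := ty_eq h
  -- show that the second components agree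
  have key : ∀ y y', MU n y → MU n y' → y.unpair.1 = y'.unpair.1 →
      {s | ML j n y s} = {s | ML j n y' s} → y.unpair.2 < y'.unpair.2 → False := by
    intro y y' hy hy' h1 h2 hlt
    have hT : T n.unpair.1 y'.unpair.1 (y'.unpair.2 - 1) := by
      rcases hy' with h0 | h0
      · omega
      · exact h0.2
    cases j with
    | false =>
      have hmem : y'.unpair.2 - 1 ∈ {s | ML false n y' s} :=
        ⟨hT, Or.inl ⟨rfl, by omega⟩⟩
      rw [← h2] at hmem
      rcases hmem.2 with ⟨-, h3⟩ | ⟨h3, -⟩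
      · omega
      · cases h3
    | true =>
      rcases Nat.eq_zero_or_pos y.unpair.2 with h0 | hpos
      · have hmem : y'.unpair.2 - 1 ∈ {s | ML true n y s} :=
          ⟨by rw [h1]; exact hT, Or.inr ⟨rfl, Or.inl h0⟩⟩
        rw [h2] at hmem
        rcases hmem.2 with ⟨h3, -⟩ | ⟨-, h3⟩
        · cases h3
        · omega
      · have hT' : T n.unpair.1 y.unpair.1 (y.unpair.2 - 1) := by
          rcases hy with h0 | h0
          · omega
          · exact h0.2
        have hmem : y.unpair.2 - 1 ∈ {s | ML true n y' s} :=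
          ⟨by rw [← h1]; exact hT', Or.inr ⟨rfl, Or.inr (by omega)⟩⟩
        rw [← h2] at hmem
        rcases hmem.2 with ⟨h3, -⟩ | ⟨-, h3⟩
        · cases h3
        · omega
  have h3 : y.unpair.2 = y'.unpair.2 := by
    rcases lt_trichotomy y.unpair.2 y'.unpair.2 with hlt | heq | hlt
    · exact (key y y' hy hy' h1 h2 hlt).elim
    · exact heq
    · exact (key y' y hy' hy h1.symm h2.symm hlt).elim
  calc y = Nat.pair y.unpair.1 y.unpair.2 := (Nat.pair_unpair y).symm
    _ = Nat.pair y'.unpair.1 y'.unpair.2 := by rw [h1, h3]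
    _ = y' := Nat.pair_unpair y'

theorem mod_mem (j : Bool) (n : ℕ) : InKn n (mod j n) := by
  classical
  refine ⟨fun y hy y' hy' h => mod_inj hy hy' h, ?_, ?_⟩
  · intro y hy
    refine ⟨y.unpair.1, ?_⟩
    rw [mod_typ hy]
    cases j with
    | false =>
      right
      refine ⟨y.unpair.2, ?_⟩
      congr 1
      ext s
      constructor
      · rintro ⟨h1, ⟨-, h2⟩ | ⟨h2, -⟩⟩
        · exact ⟨h1, h2⟩
        · cases h2
      · rintro ⟨h1, h2⟩
        exact ⟨h1, Or.inl ⟨rfl, h2⟩⟩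
    | true =>
      rcases Nat.eq_zero_or_pos y.unpair.2 with h0 | hpos
      · left
        congr 1
        ext s
        constructor
        · exact fun h => h.1
        · exact fun h => ⟨h, Or.inr ⟨rfl, Or.inl h0⟩⟩
      · right
        refine ⟨y.unpair.2 - 1, ?_⟩
        congr 1
        ext s
        constructor
        · rintro ⟨h1, ⟨h2, -⟩ | ⟨-, h2⟩⟩
          · cases h2
          · exact ⟨h1, by omega⟩
        · rintro ⟨h1, h2⟩
          exact ⟨h1, Or.inr ⟨rfl, Or.inr (by omega)⟩⟩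
  · intro x q
    cases j with
    | false =>
      -- the least `w ≤ q` such that there is nothing of `T` in `[w, q)`
      have hex : ∃ w, w ≤ q ∧ ∀ s, T n.unpair.1 x s → s < q → s < w :=
        ⟨q, le_rfl, fun s _ hs => hs⟩
      have hspec := Nat.find_spec hex
      have hmin := fun m hm => Nat.find_min hex (m := m) hm
      set w := Nat.find hex
      have hU : MU n (Nat.pair x w) := by
        simp only [MU, Nat.unpair_pair]
        rcases Nat.eq_zero_or_pos w with h0 | hpos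
        · exact Or.inl h0
        · refine Or.inr ⟨hpos, ?_⟩
          by_contra hcon
          refine hmin (w - 1) (by omega) ⟨by omega, fun s hs hq => ?_⟩
          have h5 := hspec.2 s hs hq
          rcases Nat.lt_or_ge s (w - 1) with h6 | h6
          · exact h6
          · have : s = w - 1 := by omega
            exact absurd (this ▸ hs) hcon
      refine ⟨Nat.pair x w, hU, ?_⟩
      rw [mod_typ hU]
      simp only [Nat.unpair_pair]
      congr 1
      ext s
      simp only [ML, Nat.unpair_pair]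
      constructor
      · rintro ⟨h1, ⟨-, h2⟩ | ⟨h2, -⟩⟩
        · exact ⟨h1, lt_of_lt_of_le h2 hspec.1⟩
        · cases h2
      · rintro ⟨h1, h2⟩
        exact ⟨h1, Or.inl ⟨trivial, hspec.2 s h1 h2⟩⟩
    | true =>
      by_cases hex : ∃ s, T n.unpair.1 x s ∧ q ≤ s
      · have hspec := Nat.find_spec hex
        have hmin := fun m hm => Nat.find_min hex (m := m) hm
        set s0 := Nat.find hex
        have hU : MU n (Nat.pair x (s0 + 1)) := by
          simp only [MU, Nat.unpair_pair]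
          exact Or.inr ⟨by omega, by simpa using hspec.1⟩
        refine ⟨Nat.pair x (s0 + 1), hU, ?_⟩
        rw [mod_typ hU]
        simp only [Nat.unpair_pair]
        congr 1
        ext s
        simp only [ML, Nat.unpair_pair]
        constructor
        · rintro ⟨h1, ⟨h2, -⟩ | ⟨-, h2⟩⟩
          · cases h2
          · refine ⟨h1, ?_⟩
            by_contra hle
            exact hmin s (by omega) ⟨h1, by omega⟩
        · rintro ⟨h1, h2⟩
          refine ⟨h1, Or.inr ⟨trivial, Or.inr ?_⟩⟩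
          have := hspec.2
          omega
      · push Not at hex
        have hU : MU n (Nat.pair x 0) := by
          simp only [MU, Nat.unpair_pair]
          exact Or.inl trivial
        refine ⟨Nat.pair x 0, hU, ?_⟩
        rw [mod_typ hU]
        simp only [Nat.unpair_pair]
        congr 1
        ext s
        simp only [ML, Nat.unpair_pair]
        constructor
        · rintro ⟨h1, -⟩
          exact ⟨h1, hex s h1⟩
        · rintro ⟨h1, -⟩
          exact ⟨h1, Or.inr ⟨trivial, Or.inl trivial⟩⟩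

theorem lim_mod_true (n x : ℕ) : Lim n x (mod true n) := by
  have hU : MU n (Nat.pair x 0) := by
    simp only [MU, Nat.unpair_pair]
    exact Or.inl trivial
  refine ⟨Nat.pair x 0, hU, ?_⟩
  rw [mod_typ hU]
  simp only [Nat.unpair_pair]
  congr 1
  ext s
  simp only [ML, Nat.unpair_pair]
  exact ⟨fun h => h.1, fun h => ⟨h, Or.inr ⟨trivial, Or.inl trivial⟩⟩⟩

theorem lim_mod_false {n x : ℕ} (h : Lim n x (mod false n)) : {s | T n.unpair.1 x s}.Finite := by
  obtain ⟨y, hy, hty⟩ := h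
  rw [mod_typ hy] at hty
  obtain ⟨-, h1, h2⟩ := ty_eq hty
  rw [← h2]
  refine (Set.finite_lt_nat y.unpair.2).subset ?_
  rintro s ⟨-, ⟨-, h3⟩ | ⟨h3, -⟩⟩
  · exact h3
  · cases h3

theorem isom_mod_iff (n : ℕ) : Isom (mod false n) (mod true n) ↔ S1 n.unpair.1 := by
  rw [isom_iff_lim (mod_mem false n) (mod_mem true n), S1_iff]
  constructor
  · intro h x
    exact lim_mod_false ((h x).2 (lim_mod_true n x))
  · intro h x
    exact ⟨fun _ => lim_mod_true n x, fun _ => lim_of_finite (mod_mem false n) (h x)⟩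

/-! computability of the diagrams of the models -/

theorem encode_singleton (y : ℕ) : encode [y] = Nat.pair y 0 + 1 := by
  simp

/-- the diagram -/
def Dg (j : Bool) (z : ℕ × ℕ) : Prop :=
  (z.2 % 2 = 0 ∧ (z.2 / 2).unpair.1 = (z.2 / 2).unpair.2 ∧ MU z.1 (z.2 / 2).unpair.1) ∨
  (z.2 % 2 = 1 ∧ 0 < (z.2 / 2).unpair.2 ∧ ((z.2 / 2).unpair.2 - 1).unpair.2 = 0 ∧
    MR j z.1 (z.2 / 2).unpair.1 ((z.2 / 2).unpair.2 - 1).unpair.1)

theorem dg_iff (j : Bool) (n m : ℕ) : Dg j (n, m) ↔ m ∈ (mod j n).diagram := by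
  constructor
  · rintro (⟨h1, h2, h3⟩ | ⟨h1, h2, h3, h4⟩)
    · have hm : m = 2 * Nat.pair (m / 2).unpair.1 (m / 2).unpair.2 := by
        rw [Nat.pair_unpair]
        simp only at h1
        omega
      rw [hm, eq_mem_diagram]
      exact ⟨h2, h3⟩
    · simp only at h1 h2 h3 h4
      have hc : (m / 2).unpair.2 = encode [((m / 2).unpair.2 - 1).unpair.1] := by
        rw [encode_singleton, ← h3, Nat.pair_unpair]
        omega
      have hm : m = 2 * Nat.pair (m / 2).unpair.1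
          (encode [((m / 2).unpair.2 - 1).unpair.1]) + 1 := by
        rw [← hc, Nat.pair_unpair]
        omega
      have hm' : m = (Atom.rel (ar := ar1) (m / 2).unpair.1
        (fun _ => ((m / 2).unpair.2 - 1).unpair.1)).code := hm
      rw [hm', code_mem_diagram]
      exact h4
  · rintro ⟨φ, rfl, hφ⟩
    cases φ with
    | eq i i' =>
      obtain ⟨rfl, h⟩ := hφ
      left
      have e1 : (Atom.eq (ar := ar1) i i).code = 2 * Nat.pair i i := rfl
      have e2 : 2 * Nat.pair i i / 2 = Nat.pair i i := by omega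
      rw [e1]
      refine ⟨by simp, ?_, ?_⟩
      · simp [e2]
      · simp only [e2, Nat.unpair_pair]
        exact h
    | rel p v =>
      right
      have hφ' : MR j n p (v ⟨0, by simp [ar1]⟩) := hφ
      rw [eq_const p v]
      set y := v ⟨0, by simp [ar1]⟩
      have e1 : (Atom.rel (ar := ar1) p (fun _ => y)).code =
          2 * Nat.pair p (encode [y]) + 1 := rfl
      rw [e1, encode_singleton]
      have e2 : (2 * Nat.pair p (Nat.pair y 0 + 1) + 1) / 2 = Nat.pair p (Nat.pair y 0 + 1) := by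
        omega
      have e3 : Nat.pair y 0 + 1 - 1 = Nat.pair y 0 := rfl
      refine ⟨by simp only; omega, ?_, ?_, ?_⟩
      · simp [e2]
      · simp only [e2, e3, Nat.unpair_pair]
      · simp only [e2, e3, Nat.unpair_pair]
        exact hφ'

section primrec

variable {α : Type} [Primcodable α]

theorem pr_T {f g h : α → ℕ} (hf : Primrec f) (hg : Primrec g) (hh : Primrec h) :
    PrimrecPred (fun a => T (f a) (g a) (h a)) :=
  T_primrec.comp (f := fun a => ((f a, g a), h a)) ((hf.pair hg).pair hh)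

theorem pr_MU {f g : α → ℕ} (hf : Primrec f) (hg : Primrec g) :
    PrimrecPred (fun a => MU (f a) (g a)) := by
  have hg1 : Primrec (fun a => (g a).unpair.1) := Primrec.fst.comp (Primrec.unpair.comp hg)
  have hg2 : Primrec (fun a => (g a).unpair.2) := Primrec.snd.comp (Primrec.unpair.comp hg)
  have hf1 : Primrec (fun a => (f a).unpair.1) := Primrec.fst.comp (Primrec.unpair.comp hf)
  refine PrimrecPred.or ?_ (PrimrecPred.and ?_ ?_)
  · exact PrimrecRel.comp Primrec.eq hg2 (Primrec.const 0)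
  · exact Primrec.nat_lt.comp (Primrec.const 0) hg2
  · exact pr_T hf1 hg1 (Primrec.nat_sub.comp hg2 (Primrec.const 1))

theorem pr_ML (j : Bool) {f g h : α → ℕ} (hf : Primrec f) (hg : Primrec g) (hh : Primrec h) :
    PrimrecPred (fun a => ML j (f a) (g a) (h a)) := by
  have hg1 : Primrec (fun a => (g a).unpair.1) := Primrec.fst.comp (Primrec.unpair.comp hg)
  have hg2 : Primrec (fun a => (g a).unpair.2) := Primrec.snd.comp (Primrec.unpair.comp hg)
  have hf1 : Primrec (fun a => (f a).unpair.1) := Primrec.fst.comp (Primrec.unpair.comp hf)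
  refine PrimrecPred.and (pr_T hf1 hg1 hh) ?_
  refine PrimrecPred.or (PrimrecPred.and ?_ ?_) (PrimrecPred.and ?_ (PrimrecPred.or ?_ ?_))
  · exact PrimrecRel.comp Primrec.eq (Primrec.const j) (Primrec.const false)
  · exact Primrec.nat_lt.comp hh hg2
  · exact PrimrecRel.comp Primrec.eq (Primrec.const j) (Primrec.const true)
  · exact PrimrecRel.comp Primrec.eq hg2 (Primrec.const 0)
  · exact Primrec.nat_lt.comp (Primrec.succ.comp hh) hg2

theorem pr_MR (j : Bool) {f g h : α → ℕ} (hf : Primrec f) (hg : Primrec g) (hh : Primrec h) :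
    PrimrecPred (fun a => MR j (f a) (g a) (h a)) := by
  have hg1 : Primrec (fun a => (g a).unpair.1) := Primrec.fst.comp (Primrec.unpair.comp hg)
  have hg2 : Primrec (fun a => (g a).unpair.2) := Primrec.snd.comp (Primrec.unpair.comp hg)
  have hg21 : Primrec (fun a => (g a).unpair.2.unpair.1) :=
    Primrec.fst.comp (Primrec.unpair.comp hg2)
  have hg22 : Primrec (fun a => (g a).unpair.2.unpair.2) :=
    Primrec.snd.comp (Primrec.unpair.comp hg2)
  have hh1 : Primrec (fun a => (h a).unpair.1) := Primrec.fst.comp (Primrec.unpair.comp hh)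
  refine PrimrecPred.and (pr_MU hf hh) (PrimrecPred.and ?_ (PrimrecPred.and ?_
    (PrimrecPred.or ?_ (PrimrecPred.and ?_ ?_))))
  · exact PrimrecRel.comp Primrec.eq hg1 hf
  · exact PrimrecRel.comp Primrec.eq hg21 hh1
  · exact PrimrecRel.comp Primrec.eq hg22 (Primrec.const 0)
  · exact Primrec.nat_lt.comp (Primrec.const 0) hg22
  · exact pr_ML j hf hh (Primrec.nat_sub.comp hg22 (Primrec.const 1))

theorem pr_Dg (j : Bool) : PrimrecPred (Dg j) := by
  have h2 : Primrec (fun z : ℕ × ℕ => z.2 % 2) :=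
    Primrec.nat_mod.comp Primrec.snd (Primrec.const 2)
  have hh : Primrec (fun z : ℕ × ℕ => (z.2 / 2).unpair) :=
    Primrec.unpair.comp (Primrec.nat_div.comp Primrec.snd (Primrec.const 2))
  have h1 : Primrec (fun z : ℕ × ℕ => (z.2 / 2).unpair.1) := Primrec.fst.comp hh
  have h3 : Primrec (fun z : ℕ × ℕ => (z.2 / 2).unpair.2) := Primrec.snd.comp hh
  have h4 : Primrec (fun z : ℕ × ℕ => ((z.2 / 2).unpair.2 - 1).unpair) :=
    Primrec.unpair.comp (Primrec.nat_sub.comp h3 (Primrec.const 1))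
  refine PrimrecPred.or (PrimrecPred.and ?_ (PrimrecPred.and ?_ ?_))
    (PrimrecPred.and ?_ (PrimrecPred.and ?_ (PrimrecPred.and ?_ ?_)))
  · exact PrimrecRel.comp Primrec.eq h2 (Primrec.const 0)
  · exact PrimrecRel.comp Primrec.eq h1 h3
  · exact pr_MU Primrec.fst h1
  · exact PrimrecRel.comp Primrec.eq h2 (Primrec.const 1)
  · exact Primrec.nat_lt.comp (Primrec.const 0) h3
  · exact PrimrecRel.comp Primrec.eq (Primrec.snd.comp h4) (Primrec.const 0)
  · exact pr_MR j Primrec.fst h1 (Primrec.fst.comp h4)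

end primrec

open Classical in
/-- indices of uniformly computable structures -/
theorem exists_indices {ar : ℕ → ℕ} {A : ℕ → OStr ar} {D : ℕ × ℕ → Prop}
    (hD : ComputablePred D) (h : ∀ n m, D (n, m) ↔ m ∈ (A n).diagram) :
    ∃ g : ℕ → ℕ, Computable g ∧ ∀ n, IsIndex (g n) (A n) := by
  obtain ⟨hd, hc⟩ := hD
  have h1 : Computable (fun m : ℕ => if decide (D m.unpair) = true then 1 else 0) := by
    have h2 : Computable (fun m : ℕ => decide (D m.unpair)) :=
      hc.comp Primrec.unpair.to_comp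
    exact (Computable.cond h2 (Computable.const 1) (Computable.const 0)).of_eq fun m => by
      cases decide (D m.unpair) <;> rfl
  obtain ⟨c, hc'⟩ := Nat.Partrec.Code.exists_code.1 (Partrec.nat_iff.1 h1.partrec)
  refine ⟨fun n => encode (curry c n), ?_, ?_⟩
  · exact Computable.encode.comp
      (Nat.Partrec.Code.primrec₂_curry.to_comp.comp (Computable.const c) Computable.id)
  · intro n m
    simp only [ofNat_encode]
    rw [eval_curry, hc']
    simp only [PFun.coe_val, Nat.unpair_pair, decide_eq_true_eq]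
    congr 1
    by_cases hm : m ∈ (A n).diagram
    · simp [hm, (h n m).2 hm]
    · have : ¬ D (n, m) := fun h' => hm ((h n m).1 h')
      simp [hm, this]

theorem exists_mod_indices (j : Bool) :
    ∃ g : ℕ → ℕ, Computable g ∧ ∀ n, IsIndex (g n) (mod j n) :=
  exists_indices (pr_Dg j).computablePred (dg_iff j)

theorem isoProblem_not_arith : ¬ Arith 3 true (isoProblem ClassK) := by
  intro hE
  obtain ⟨g0, hg0, h0⟩ := exists_mod_indices false
  obtain ⟨g1, hg1, h1⟩ := exists_mod_indices true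
  apply S1_not_arith
  have h2 : Arith 3 true (fun i : ℕ => ∃ z, C0 (Nat.pair i z) ∧
      isoProblem ClassK (g0 (Nat.pair i z), g1 (Nat.pair i z))) := by
    refine Arith.ex (k := 2) (p := fun u : ℕ × ℕ => C0 (Nat.pair u.1 u.2) ∧
      isoProblem ClassK (g0 (Nat.pair u.1 u.2), g1 (Nat.pair u.1 u.2))) ?_
    have hp : Computable (fun u : ℕ × ℕ => Nat.pair u.1 u.2) := by fun_prop
    refine Arith.and ?_ ?_
    · exact Arith.mono_lt (by norm_num) (C0_arith.comp hp)
    · exact hE.comp (f := fun u : ℕ × ℕ => (g0 (Nat.pair u.1 u.2), g1 (Nat.pair u.1 u.2)))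
        ((hg0.comp hp).pair (hg1.comp hp))
  refine h2.congr fun i => ?_
  constructor
  · rintro ⟨z, hz, A, hA, B, hB, hiA, hiB, hiso⟩
    have eA := hiA.unique (h0 (Nat.pair i z))
    have eB := hiB.unique (h1 (Nat.pair i z))
    rw [eA, eB, isom_mod_iff] at hiso
    simpa using hiso
  · intro hi
    obtain ⟨z, hz⟩ := exists_C0 i
    refine ⟨z, hz, mod false (Nat.pair i z), ⟨_, hz, mod_mem _ _⟩, mod true (Nat.pair i z),
      ⟨_, hz, mod_mem _ _⟩, h0 _, h1 _, ?_⟩
    rw [isom_mod_iff]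
    simpa using hi

/-! ### incompleteness -/

/-- the isomorphic pairs whose tag is outside of the critical set -/
def QIx (z : ℕ × ℕ) : Prop :=
  InI z.1 ∧ InI z.2 ∧ ∃ w : ℕ × ℕ, TagIx z.1 w.1 ∧ TagIx z.2 w.1 ∧
    (∀ b, ∃ s, b ≤ s ∧ T w.1.unpair.1 w.2 s) ∧
    ((¬ LimIx z.1 w.1 w.2 ∨ LimIx z.2 w.1 w.2) ∧
      (¬ LimIx z.2 w.1 w.2 ∨ LimIx z.1 w.1 w.2))

theorem qIx_arith : Arith 3 true QIx := by
  have h1 : Arith 3 true (fun z : ℕ × ℕ => InI z.1) := (inI_arith.comp Computable.fst).succ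
  have h2 : Arith 3 true (fun z : ℕ × ℕ => InI z.2) := (inI_arith.comp Computable.snd).succ
  have hl1 : Arith 2 true (fun u : (ℕ × ℕ) × (ℕ × ℕ) => LimIx u.1.1 u.2.1 u.2.2) :=
    limIx_arith.comp (f := fun u : (ℕ × ℕ) × (ℕ × ℕ) => ((u.1.1, u.2.1), u.2.2)) (by fun_prop)
  have hl2 : Arith 2 true (fun u : (ℕ × ℕ) × (ℕ × ℕ) => LimIx u.1.2 u.2.1 u.2.2) :=
    limIx_arith.comp (f := fun u : (ℕ × ℕ) × (ℕ × ℕ) => ((u.1.2, u.2.1), u.2.2)) (by fun_prop)
  have hi : Arith 2 false (fun u : (ℕ × ℕ) × (ℕ × ℕ) =>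
      ∀ b, ∃ s, b ≤ s ∧ T u.2.1.unpair.1 u.2.2 s) := by
    refine Arith.all' (k := 1) (p := fun v : ((ℕ × ℕ) × (ℕ × ℕ)) × ℕ =>
      ∃ s, v.2 ≤ s ∧ T v.1.2.1.unpair.1 v.1.2.2 s) ?_
    refine Arith.ex (k := 0) (p := fun t : (((ℕ × ℕ) × (ℕ × ℕ)) × ℕ) × ℕ =>
      t.1.2 ≤ t.2 ∧ T t.1.1.2.1.unpair.1 t.1.1.2.2 t.2) ?_
    refine Arith.and ?_ (T_arith (by fun_prop) (by fun_prop) (by fun_prop))
    exact ((lt_arith (s := false) (f := fun t : (((ℕ × ℕ) × (ℕ × ℕ)) × ℕ) × ℕ => t.2)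
      (g := fun t => t.1.2) (by fun_prop) (by fun_prop)).not).congr fun t => not_lt
  have h4 : Arith 3 true (fun z : ℕ × ℕ => ∃ w : ℕ × ℕ, TagIx z.1 w.1 ∧ TagIx z.2 w.1 ∧
      (∀ b, ∃ s, b ≤ s ∧ T w.1.unpair.1 w.2 s) ∧
      ((¬ LimIx z.1 w.1 w.2 ∨ LimIx z.2 w.1 w.2) ∧
      (¬ LimIx z.2 w.1 w.2 ∨ LimIx z.1 w.1 w.2))) := by
    refine Arith.ex (k := 2) (p := fun u : (ℕ × ℕ) × (ℕ × ℕ) => TagIx u.1.1 u.2.1 ∧
      TagIx u.1.2 u.2.1 ∧ (∀ b, ∃ s, b ≤ s ∧ T u.2.1.unpair.1 u.2.2 s) ∧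
      ((¬ LimIx u.1.1 u.2.1 u.2.2 ∨ LimIx u.1.2 u.2.1 u.2.2) ∧
      (¬ LimIx u.1.2 u.2.1 u.2.2 ∨ LimIx u.1.1 u.2.1 u.2.2))) ?_
    refine Arith.and ?_ (Arith.and ?_ (Arith.and ?_ (Arith.and (Arith.or ?_ ?_)
      (Arith.or ?_ ?_))))
    · exact Arith.mono_lt (by norm_num) (tagIx_arith.comp
        (f := fun u : (ℕ × ℕ) × (ℕ × ℕ) => (u.1.1, u.2.1)) (by fun_prop))
    · exact Arith.mono_lt (by norm_num) (tagIx_arith.comp
        (f := fun u : (ℕ × ℕ) × (ℕ × ℕ) => (u.1.2, u.2.1)) (by fun_prop))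
    · exact hi.succ
    · exact hl1.not.succ
    · exact hl2.succ
    · exact hl2.not.succ
    · exact hl1.succ
  exact h1.and (h2.and h4)

theorem isoProblem_incomplete : ¬ ((fun e : ℕ => ¬ Univ 2 e e) ≤₀ isoProblem ClassK) := by
  rintro ⟨f, hf, hfe⟩
  have hf1 : Computable (fun e => (f e).1) := Computable.fst.comp hf
  have hf2 : Computable (fun e => (f e).2) := Computable.snd.comp hf
  let G : List ℕ × ℕ → Prop := fun w => QIx (f w.2) ∨
    (InI (f w.2).1 ∧ InI (f w.2).2 ∧ ∃ n, n ∈ w.1 ∧ TagIx (f w.2).1 n ∧ TagIx (f w.2).2 n)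
  have hG : Arith 3 true G := by
    refine Arith.or ?_ (Arith.and ?_ (Arith.and ?_ ?_))
    · exact qIx_arith.comp (f := fun w : List ℕ × ℕ => f w.2) (hf.comp Computable.snd)
    · exact (inI_arith.comp (f := fun w : List ℕ × ℕ => (f w.2).1)
        (hf1.comp Computable.snd)).succ
    · exact (inI_arith.comp (f := fun w : List ℕ × ℕ => (f w.2).2)
        (hf2.comp Computable.snd)).succ
    · refine Arith.ex (k := 2) (p := fun u : (List ℕ × ℕ) × ℕ => u.2 ∈ u.1.1 ∧
        TagIx (f u.1.2).1 u.2 ∧ TagIx (f u.1.2).2 u.2) ?_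
      refine Arith.and ?_ (Arith.and ?_ ?_)
      · refine Arith.of_computable ?_
        have hm : PrimrecPred (fun x : List ℕ × ℕ => x.2 ∈ x.1) := by
          have := (PrimrecRel.exists_mem_list (R := fun a b : ℕ => a = b) Primrec.eq)
          exact this.of_eq (fun L b => by simp)
        exact ComputablePred.comp' hm.computablePred
          (f := fun u : (List ℕ × ℕ) × ℕ => (u.1.1, u.2))
          ((Computable.fst.comp Computable.fst).pair Computable.snd)
      · exact Arith.mono_lt (by norm_num) (tagIx_arith.comp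
          (f := fun u : (List ℕ × ℕ) × ℕ => ((f u.1.2).1, u.2))
          ((hf1.comp (Computable.snd.comp Computable.fst)).pair Computable.snd))
      · exact Arith.mono_lt (by norm_num) (tagIx_arith.comp
          (f := fun u : (List ℕ × ℕ) × ℕ => ((f u.1.2).2, u.2))
          ((hf2.comp (Computable.snd.comp Computable.fst)).pair Computable.snd))
  obtain ⟨i, hi, hiG⟩ := exists_index hG
  refine no_escape (S := fun n => C0 n ∧ S1 n.unpair.1) (fun n hn => hn.1)
    (tag := fun x => TagIx x.1 x.2) tagIx_arith (h := fun F => (f (i F)).1)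
    (hf1.comp hi) ?_
  intro F hF
  -- `G(F, ·)` is contained in the preimage of the isomorphism problem
  have hsub : G (F, i F) → isoProblem ClassK (f (i F)) := by
    rintro (⟨h1, h2, w, ht1, ht2, hinf, hlim⟩ | ⟨h1, h2, n, hn, ht1, ht2⟩)
    · obtain ⟨A, ⟨n, hn, hA⟩, ha⟩ := (inI_iff _).1 h1
      obtain ⟨B, ⟨m, hm, hB⟩, hb⟩ := (inI_iff _).1 h2
      rw [tagIx_iff ha hA] at ht1
      rw [tagIx_iff hb hB] at ht2
      obtain rfl : n = m := ht1.symm.trans ht2
      refine ⟨A, ⟨n, hn, hA⟩, B, ⟨n, hn, hB⟩, ha, hb, ?_⟩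
      rw [isom_iff_lim hA hB]
      intro x
      rw [ht1, limIx_iff ha hA, limIx_iff hb hB] at hlim
      rw [ht1] at hinf
      by_cases hx : x = w.2
      · subst hx
        tauto
      · have hfin : {s | T n.unpair.1 x s}.Finite := by
          by_contra hcon
          refine hx (T_unique hcon ?_)
          intro hfin
          obtain ⟨b, hb'⟩ := hfin.bddAbove
          obtain ⟨s, hs, hT⟩ := hinf (b + 1)
          have := hb' hT
          omega
        exact ⟨fun _ => lim_of_finite hB hfin, fun _ => lim_of_finite hA hfin⟩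
    · obtain ⟨A, ⟨n', hn', hA⟩, ha⟩ := (inI_iff _).1 h1
      obtain ⟨B, ⟨m, hm, hB⟩, hb⟩ := (inI_iff _).1 h2
      rw [tagIx_iff ha hA] at ht1
      rw [tagIx_iff hb hB] at ht2
      subst ht1
      subst ht2
      refine ⟨A, ⟨n, hn', hA⟩, B, ⟨n, hn', hB⟩, ha, hb, ?_⟩
      rw [isom_iff_lim hA hB]
      intro x
      have hfin := (S1_iff _).1 (hF n hn).2 x
      exact ⟨fun _ => lim_of_finite hB hfin, fun _ => lim_of_finite hA hfin⟩
  have hnG : ¬ G (F, i F) := by
    intro hg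
    have h1 := (hiG F (i F)).1 hg
    exact (hfe (i F)).2 (hsub hg) h1
  have hE : isoProblem ClassK (f (i F)) := by
    rw [← hfe]
    exact fun h => hnG ((hiG F (i F)).2 h)
  obtain ⟨A, ⟨n, hn, hA⟩, B, ⟨m, hm, hB⟩, ha, hb, hiso⟩ := hE
  obtain rfl := tag_unique hA hB hiso
  refine ⟨⟨n, (tagIx_iff ha hA).2 rfl⟩, fun k hk => ?_⟩
  obtain rfl := (tagIx_iff ha hA).1 hk
  have hI1 : InI (f (i F)).1 := (inI_iff _).2 ⟨A, ⟨k, hn, hA⟩, ha⟩
  have hI2 : InI (f (i F)).2 := (inI_iff _).2 ⟨B, ⟨k, hm, hB⟩, hb⟩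
  refine ⟨⟨hn, ?_⟩, ?_⟩
  · by_contra hS
    obtain ⟨x, hx⟩ := (not_S1_iff' _).1 hS
    refine hnG (Or.inl ⟨hI1, hI2, (k, x), (tagIx_iff ha hA).2 rfl, (tagIx_iff hb hB).2 rfl, ?_, ?_⟩)
    · intro b
      obtain ⟨s, hs, hlt⟩ := hx.exists_gt b
      exact ⟨s, hlt.le, hs⟩
    · simp only
      rw [limIx_iff ha hA, limIx_iff hb hB]
      have := (isom_iff_lim hA hB).1 hiso x
      tauto
  · intro hkF
    exact hnG (Or.inr ⟨hI1, hI2, k, hkF, (tagIx_iff ha hA).2 rfl, (tagIx_iff hb hB).2 rfl⟩)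

end Pool.Agent.MPbe00aa
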