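import Pool.Agent.MPbe00aa.Immune

/-!
A unique normal form for the complement of a properly `Π⁰₃` set.
-/

namespace Pool.Agent.MPbe00aa

open Nat.Partrec (Code)
open Nat.Partrec.Code Denumerable Encodable

section bounded
variable {α : Type} [Primcodable α]

theorem primrecPred_forall_lt {p : α × ℕ → Prop} (hp : PrimrecPred p) {f : α → ℕ}
    (hf : Primrec f) : PrimrecPred (fun a => ∀ x < f a, p (a, x)) := by
  have h1 : PrimrecRel (fun (x : ℕ) (a : α) => p (a, x)) :=
    hp.comp (f := fun y : ℕ × α => (y.2, y.1)) (Primrec.snd.pair Primrec.fst)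
  have h2 := h1.forall_mem_list
  have h3 : PrimrecPred (fun a : α => ∀ x ∈ List.range (f a), p (a, x)) :=
    h2.comp (Primrec.list_range.comp hf) Primrec.id
  exact h3.of_eq fun a => by simp

theorem primrecPred_exists_lt {p : α × ℕ → Prop} (hp : PrimrecPred p) {f : α → ℕ}
    (hf : Primrec f) : PrimrecPred (fun a => ∃ x < f a, p (a, x)) := by
  have h := (primrecPred_forall_lt hp.not hf).not
  refine h.of_eq fun a => ?_
  push Not
  rfl

end bounded

/-- The properly `Π⁰₃` set used below. -/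
def S1 (i : ℕ) : Prop := ¬ Univ 2 i i

/-- A computation of `φ_i` on `⟨⟨i, x⟩, y⟩` halts within `t` steps. -/
def Ev (i x y t : ℕ) : Prop := (evaln t (ofNat Code i) (Nat.pair (Nat.pair i x) y)).isSome = true

theorem Ev_mono {i x y t t' : ℕ} (h : t ≤ t') (he : Ev i x y t) : Ev i x y t' := by
  obtain ⟨v, hv⟩ := Option.isSome_iff_exists.1 he
  exact Option.isSome_iff_exists.2 ⟨v, evaln_mono h hv⟩

theorem not_S1_iff (i : ℕ) : ¬ S1 i ↔ ∃ x, ∀ y, ∃ t, Ev i x y t := by
  have h0 : ¬ S1 i ↔ ∃ x, ∀ y, ((ofNat Code i).eval (Nat.pair (Nat.pair i x) y)).Dom := by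
    simp only [S1, not_not, Univ]
    exact exists_congr fun x => by push Not; rfl
  rw [h0]
  refine exists_congr fun x => forall_congr' fun y => ?_
  constructor
  · intro hd
    obtain ⟨k, hk⟩ := evaln_complete.1 (Part.get_mem hd)
    refine ⟨k, ?_⟩
    simp only [Option.mem_def] at hk
    simp [Ev, hk]
  · rintro ⟨k, hk⟩
    obtain ⟨v, hv⟩ := Option.isSome_iff_exists.1 hk
    exact Part.dom_iff_mem.2 ⟨v, evaln_sound hv⟩

/-- `All i x k t`: by stage `t`, the first `k` instances are verified. -/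
def All (i x k t : ℕ) : Prop := ∀ y < k, Ev i x y t

/-- The stages `⟨k, t⟩` at which the `k`-th initial segment is first seen verified. -/
def T0 (i x s : ℕ) : Prop :=
  All i x s.unpair.1 s.unpair.2 ∧ ∀ t < s.unpair.2, ¬ All i x s.unpair.1 t

theorem All_mono {i x k t t' : ℕ} (h : t ≤ t') (he : All i x k t) : All i x k t' :=
  fun y hy => Ev_mono h (he y hy)

theorem T0_infinite_iff (i x : ℕ) : {s | T0 i x s}.Infinite ↔ ∀ y, ∃ t, Ev i x y t := by
  constructor
  · intro hinf y
    by_contra hcon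
    push Not at hcon
    -- then `k ≤ y` for all `⟨k, t⟩` in the set, and `t` is determined by `k`
    refine hinf ?_
    have hk : ∀ s ∈ {s | T0 i x s}, s.unpair.1 ∈ Set.Iic y := by
      intro s hs
      by_contra hlt
      simp only [Set.mem_Iic, not_le] at hlt
      exact hcon _ (hs.1 y hlt)
    refine Set.Finite.of_finite_image (f := fun s : ℕ => s.unpair.1)
      ((Set.finite_Iic y).subset ?_) ?_
    · rintro _ ⟨s, hs, rfl⟩
      exact hk s hs
    · intro s hs s' hs' heq
      simp only at heq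
      have h2 : s.unpair.2 = s'.unpair.2 := by
        rcases lt_trichotomy s.unpair.2 s'.unpair.2 with hlt | heq' | hlt
        · exact absurd (heq ▸ hs.1) (hs'.2 _ hlt)
        · exact heq'
        · exact absurd (heq ▸ hs'.1) (hs.2 _ hlt)
      calc s = Nat.pair s.unpair.1 s.unpair.2 := (Nat.pair_unpair s).symm
        _ = Nat.pair s'.unpair.1 s'.unpair.2 := by rw [heq, h2]
        _ = s' := Nat.pair_unpair s'
  · intro h
    have hall : ∀ k, ∃ t, All i x k t := by
      intro k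
      induction k with
      | zero => exact ⟨0, fun y hy => absurd hy (Nat.not_lt_zero y)⟩
      | succ k ih =>
        obtain ⟨t, ht⟩ := ih
        obtain ⟨t', ht'⟩ := h k
        refine ⟨max t t', fun y hy => ?_⟩
        rcases Nat.lt_succ_iff_lt_or_eq.1 hy with hy | rfl
        · exact Ev_mono (le_max_left _ _) (ht y hy)
        · exact Ev_mono (le_max_right _ _) ht'
    classical
    let g : ℕ → ℕ := fun k => Nat.pair k (Nat.find (hall k))
    have hg : ∀ k, T0 i x (g k) := by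
      intro k
      simp only [T0, g, Nat.unpair_pair]
      exact ⟨Nat.find_spec (hall k), fun t ht => Nat.find_min (hall k) ht⟩
    refine Set.infinite_of_injective_forall_mem (f := g) ?_ hg
    intro k k' hkk
    exact (Nat.pair_eq_pair.1 hkk).1

/-- The computable sets `T(i, x)`, at most one of which is infinite for every `i`. -/
def T (i x s : ℕ) : Prop :=
  T0 i x.unpair.1 s ∧ (x.unpair.2 = 0 ∨ ∃ p < x.unpair.1, T0 i p (x.unpair.2 - 1)) ∧
    ∀ s' < s + 1, x.unpair.2 ≤ s' → ∀ p < x.unpair.1, ¬ T0 i p s'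

theorem T_infinite_iff (i x : ℕ) : {s | T i x s}.Infinite ↔
    {s | T0 i x.unpair.1 s}.Infinite ∧
      (x.unpair.2 = 0 ∨ ∃ p < x.unpair.1, T0 i p (x.unpair.2 - 1)) ∧
      ∀ s', x.unpair.2 ≤ s' → ∀ p < x.unpair.1, ¬ T0 i p s' := by
  constructor
  · intro hinf
    refine ⟨hinf.mono fun s hs => hs.1, ?_, ?_⟩
    · obtain ⟨s, hs⟩ := hinf.nonempty
      exact hs.2.1
    · intro s' hs' p hp
      obtain ⟨s, hs, hlt⟩ := hinf.exists_gt s'
      exact hs.2.2 s' (by omega) hs' p hp
  · rintro ⟨h1, h2, h3⟩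
    exact h1.mono fun s hs => ⟨hs, h2, fun s' _ => h3 s'⟩

theorem T_unique {i x x' : ℕ} (h : {s | T i x s}.Infinite) (h' : {s | T i x' s}.Infinite) :
    x = x' := by
  rw [T_infinite_iff] at h h'
  obtain ⟨h1, h2, h3⟩ := h
  obtain ⟨h1', h2', h3'⟩ := h'
  have e1 : x.unpair.1 = x'.unpair.1 := by
    rcases lt_trichotomy x.unpair.1 x'.unpair.1 with hlt | heq | hlt
    · obtain ⟨s, hs, hgt⟩ := h1.exists_gt x'.unpair.2
      exact absurd hs (h3' s hgt.le _ hlt)
    · exact heq
    · obtain ⟨s, hs, hgt⟩ := h1'.exists_gt x.unpair.2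
      exact absurd hs (h3 s hgt.le _ hlt)
  have e2 : x.unpair.2 = x'.unpair.2 := by
    rcases lt_trichotomy x.unpair.2 x'.unpair.2 with hlt | heq | hlt
    · rcases h2' with h0 | ⟨p, hp, hT⟩
      · omega
      · exact absurd hT (h3 _ (by omega) p (by omega))
    · exact heq
    · rcases h2 with h0 | ⟨p, hp, hT⟩
      · omega
      · exact absurd hT (h3' _ (by omega) p (by omega))
  calc x = Nat.pair x.unpair.1 x.unpair.2 := (Nat.pair_unpair x).symm
    _ = Nat.pair x'.unpair.1 x'.unpair.2 := by rw [e1, e2]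
    _ = x' := Nat.pair_unpair x'

theorem not_S1_iff' (i : ℕ) : ¬ S1 i ↔ ∃ x, {s | T i x s}.Infinite := by
  classical
  rw [not_S1_iff]
  constructor
  · rintro hx
    have hx' : ∃ x, {s | T0 i x s}.Infinite := by
      obtain ⟨x, hx⟩ := hx
      exact ⟨x, (T0_infinite_iff i x).2 hx⟩
    -- the least such `x`
    obtain ⟨hx1, hx2⟩ := And.intro (Nat.find_spec hx') (fun p hp => Nat.find_min hx' (m := p) hp)
    set x := Nat.find hx' with hxdef
    -- the finitely many smaller rows are finite, so bounded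
    have hb : ∃ c, ∀ s', c ≤ s' → ∀ p < x, ¬ T0 i p s' := by
      have hfin : (⋃ p ∈ Finset.range x, {s | T0 i p s}).Finite := by
        refine Set.Finite.biUnion (Finset.finite_toSet _) ?_
        intro p hp
        have hp' : p < x := by simpa using hp
        exact Set.not_infinite.1 (hx2 p hp')
      obtain ⟨b, hb⟩ := hfin.bddAbove
      refine ⟨b + 1, fun s' hs' p hp hT => ?_⟩
      have hmem : s' ∈ ⋃ p ∈ Finset.range x, {s | T0 i p s} := by
        simp only [Set.mem_iUnion]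
        exact ⟨p, by simpa using hp, hT⟩
      have := hb hmem
      omega
    have hc1 := Nat.find_spec hb
    have hc2 := fun m hm => Nat.find_min hb (m := m) hm
    set c := Nat.find hb with hcdef
    refine ⟨Nat.pair x c, ?_⟩
    rw [T_infinite_iff]
    simp only [Nat.unpair_pair]
    refine ⟨hx1, ?_, hc1⟩
    rcases Nat.eq_zero_or_pos c with h0 | hpos
    · exact Or.inl h0
    · right
      by_contra hcon
      push Not at hcon
      refine hc2 (c - 1) (by omega) ?_
      intro s' hs' p hp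
      rcases Nat.eq_or_lt_of_le hs' with heq | hlt
      · rw [← heq]; exact hcon p hp
      · exact hc1 s' (by omega) p hp
  · rintro ⟨x, hx⟩
    rw [T_infinite_iff] at hx
    exact ⟨x.unpair.1, (T0_infinite_iff i _).1 hx.1⟩

theorem S1_iff (i : ℕ) : S1 i ↔ ∀ x, {s | T i x s}.Finite := by
  rw [← not_iff_not, not_S1_iff']
  push Not
  rfl

/-! computability -/

theorem Ev_primrec : PrimrecPred (fun a : (ℕ × ℕ) × (ℕ × ℕ) => Ev a.1.1 a.1.2 a.2.1 a.2.2) := by
  unfold Ev
  refine PrimrecRel.comp Primrec.eq ?_ (Primrec.const true)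
  refine Primrec.option_isSome.comp ?_
  refine primrec_evaln.comp (((Primrec.snd.comp Primrec.snd).pair
    ((Primrec.ofNat Code).comp (Primrec.fst.comp Primrec.fst))).pair ?_)
  exact Primrec₂.natPair.comp (Primrec₂.natPair.comp (Primrec.fst.comp Primrec.fst)
    (Primrec.snd.comp Primrec.fst)) (Primrec.fst.comp Primrec.snd)

theorem All_primrec : PrimrecPred (fun a : (ℕ × ℕ) × (ℕ × ℕ) => All a.1.1 a.1.2 a.2.1 a.2.2) := by
  unfold All
  refine primrecPred_forall_lt (α := (ℕ × ℕ) × (ℕ × ℕ))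
    (p := fun b => Ev b.1.1.1 b.1.1.2 b.2 b.1.2.2) ?_ (Primrec.fst.comp Primrec.snd)
  exact Ev_primrec.comp (f := fun b : ((ℕ × ℕ) × (ℕ × ℕ)) × ℕ =>
    ((b.1.1.1, b.1.1.2), (b.2, b.1.2.2)))
    ((Primrec.fst.comp Primrec.fst).pair
      (Primrec.snd.pair (Primrec.snd.comp (Primrec.snd.comp Primrec.fst))))

theorem T0_primrec : PrimrecPred (fun a : (ℕ × ℕ) × ℕ => T0 a.1.1 a.1.2 a.2) := by
  unfold T0
  refine PrimrecPred.and ?_ ?_
  · exact All_primrec.comp (f := fun a : (ℕ × ℕ) × ℕ => (a.1, a.2.unpair))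
      (Primrec.fst.pair (Primrec.unpair.comp Primrec.snd))
  · refine primrecPred_forall_lt (α := (ℕ × ℕ) × ℕ)
      (p := fun b => ¬ All b.1.1.1 b.1.1.2 b.1.2.unpair.1 b.2) ?_
      (Primrec.snd.comp (Primrec.unpair.comp Primrec.snd))
    exact (All_primrec.comp (f := fun b : ((ℕ × ℕ) × ℕ) × ℕ =>
      (b.1.1, (b.1.2.unpair.1, b.2)))
      ((Primrec.fst.comp Primrec.fst).pair ((Primrec.fst.comp (Primrec.unpair.comp
        (Primrec.snd.comp Primrec.fst))).pair Primrec.snd))).not

theorem T_primrec : PrimrecPred (fun a : (ℕ × ℕ) × ℕ => T a.1.1 a.1.2 a.2) := by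
  unfold T
  have hx : Primrec (fun a : (ℕ × ℕ) × ℕ => a.1.2.unpair) :=
    Primrec.unpair.comp (Primrec.snd.comp Primrec.fst)
  refine PrimrecPred.and ?_ (PrimrecPred.and (PrimrecPred.or ?_ ?_) ?_)
  · exact T0_primrec.comp (f := fun a : (ℕ × ℕ) × ℕ => ((a.1.1, a.1.2.unpair.1), a.2))
      (((Primrec.fst.comp Primrec.fst).pair (Primrec.fst.comp hx)).pair Primrec.snd)
  · exact PrimrecRel.comp Primrec.eq (Primrec.snd.comp hx) (Primrec.const 0)
  · refine primrecPred_exists_lt (α := (ℕ × ℕ) × ℕ)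
      (p := fun b => T0 b.1.1.1 b.2 (b.1.1.2.unpair.2 - 1)) ?_ (Primrec.fst.comp hx)
    exact T0_primrec.comp (f := fun b : ((ℕ × ℕ) × ℕ) × ℕ =>
      ((b.1.1.1, b.2), b.1.1.2.unpair.2 - 1))
      (((Primrec.fst.comp (Primrec.fst.comp Primrec.fst)).pair Primrec.snd).pair
        (Primrec.nat_sub.comp (Primrec.snd.comp (hx.comp Primrec.fst)) (Primrec.const 1)))
  · refine (primrecPred_forall_lt (α := (ℕ × ℕ) × ℕ)
      (p := fun b => b.1.1.2.unpair.2 ≤ b.2 → ∀ p < b.1.1.2.unpair.1, ¬ T0 b.1.1.1 p b.2) ?_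
      (Primrec.succ.comp Primrec.snd))
    have h1 : PrimrecPred (fun b : ((ℕ × ℕ) × ℕ) × ℕ => ¬ (b.1.1.2.unpair.2 ≤ b.2)) :=
      (Primrec.nat_le.comp (Primrec.snd.comp (hx.comp Primrec.fst)) Primrec.snd).not
    have h2 : PrimrecPred (fun b : ((ℕ × ℕ) × ℕ) × ℕ =>
        ∀ p < b.1.1.2.unpair.1, ¬ T0 b.1.1.1 p b.2) := by
      refine primrecPred_forall_lt (α := ((ℕ × ℕ) × ℕ) × ℕ)
        (p := fun c => ¬ T0 c.1.1.1.1 c.2 c.1.2) ?_ (Primrec.fst.comp (hx.comp Primrec.fst))
      exact (T0_primrec.comp (f := fun c : (((ℕ × ℕ) × ℕ) × ℕ) × ℕ =>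
        ((c.1.1.1.1, c.2), c.1.2))
        (((Primrec.fst.comp (Primrec.fst.comp (Primrec.fst.comp Primrec.fst))).pair
          Primrec.snd).pair (Primrec.snd.comp Primrec.fst))).not
    exact (h1.or h2).of_eq fun b => by tauto

theorem S1_arith : Arith 3 false S1 := by
  have h := (univ_arith 2).not
  exact h.comp (f := fun i : ℕ => (i, i)) (Computable.id.pair Computable.id)

theorem S1_not_arith : ¬ Arith 3 true S1 := not_arith_diag 2

end Pool.Agent.MPbe00aa
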